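import Pool.Agent.Lib.MP_84984d_gt.Smooth

set_option autoImplicit false

/-!
The level sets are connected.
-/

namespace Pool.Agent.Lib.MP_84984d_gt

open unitInterval Topology Finset

theorem mem_Pl_two {y : ℂ} : y ∈ Pl 2 ↔ y.re ^ 2 + y.im ^ 2 ≤ 81 ∧ 1 ≤ y.re ^ 2 + y.im ^ 2 ∧
    1 ≤ (y.re - 4) ^ 2 + y.im ^ 2 := by
  rw [mem_Pl_sq]
  constructor
  · rintro ⟨h1, h2⟩
    have h3 := h2 0 (by norm_num)
    have h4 := h2 1 (by norm_num)
    norm_num at h1 h3 h4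
    exact ⟨h1, h3, h4⟩
  · rintro ⟨h1, h2, h3⟩
    refine ⟨by norm_num; exact h1, fun j hj => ?_⟩
    interval_cases j
    · norm_num; exact h2
    · norm_num; exact h3

theorem unit_mem {y : ℂ} (h : ‖y‖ = 1) : y ∈ Pl 2 := by
  have h1 := norm_sq y
  rw [h] at h1
  rw [mem_Pl_two]
  have h2 : y.re ≤ 1 := by nlinarith [sq_nonneg y.im]
  refine ⟨by linarith, by linarith, by nlinarith⟩

theorem nine_mem {y : ℂ} (h : ‖y‖ = 9) : y ∈ Pl 2 := by
  have h1 := norm_sq y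
  rw [h] at h1
  rw [mem_Pl_two]
  have h2 : y.re ≤ 9 := by nlinarith [sq_nonneg y.im]
  refine ⟨by linarith, by linarith, by nlinarith⟩

theorem neg_mem {s : ℝ} (h1 : 1 ≤ s) (h9 : s ≤ 9) : (-s : ℂ) ∈ Pl 2 := by
  rw [mem_Pl_two]
  simp only [Complex.neg_re, Complex.ofReal_re, Complex.neg_im, Complex.ofReal_im]
  refine ⟨by nlinarith, by nlinarith, by nlinarith⟩

theorem smul_mem {y : ℂ} {μ : ℝ} (h : y ∈ Pl 2)
    (h1 : 1 ≤ ‖(μ : ℂ) * y‖) (h9 : ‖(μ : ℂ) * y‖ ≤ 9)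
    (hc : (1 ≤ μ ∧ 4 * y.re ≤ y.re ^ 2 + y.im ^ 2) ∨
      (μ ≤ 1 ∧ y.re ^ 2 + y.im ^ 2 ≤ 4 * y.re)) : (μ : ℂ) * y ∈ Pl 2 := by
  rw [mem_Pl_two] at h ⊢
  have e := norm_sq ((μ : ℂ) * y)
  obtain ⟨h2, h3, h4⟩ := h
  simp only [Complex.mul_re, Complex.mul_im, Complex.ofReal_re, Complex.ofReal_im, zero_mul,
    sub_zero, add_zero] at e ⊢
  have h0 := norm_nonneg ((μ : ℂ) * y)
  refine ⟨by nlinarith, by nlinarith, ?_⟩
  rcases hc with ⟨h5, h6⟩ | ⟨h5, h6⟩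
  · nlinarith [mul_nonneg (sub_nonneg.2 h5) (sub_nonneg.2 h6), sq_nonneg ((μ - 1) * y.re),
      sq_nonneg ((μ - 1) * y.im)]
  · nlinarith [mul_nonneg (sub_nonneg.2 h5) (sub_nonneg.2 h6), sq_nonneg ((μ - 1) * y.re),
      sq_nonneg ((μ - 1) * y.im)]

section

variable {r : ℕ}

theorem pre_connected (hr : r ≠ 0) : IsPreconnected {x : ℂ | x ^ r ∈ Pl 2} := by
  obtain ⟨R, hR⟩ : ∃ R : ℝ, R = (9 : ℝ) ^ ((r : ℝ)⁻¹) := ⟨_, rfl⟩
  have hR0 : 0 < R := by rw [hR]; positivity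
  have hRr : R ^ r = 9 := by rw [hR, Real.rpow_inv_natCast_pow (by norm_num) hr]
  have hR1 : 1 ≤ R := by
    by_contra h
    push Not at h
    have := pow_le_one₀ hR0.le h.le (n := r)
    rw [hRr] at this
    norm_num at this
  obtain ⟨ω, hω⟩ : ∃ ω : ℂ, ω = Complex.exp ((Real.pi / r : ℝ) * Complex.I) := ⟨_, rfl⟩
  have hωn : ‖ω‖ = 1 := by rw [hω]; exact Complex.norm_exp_ofReal_mul_I _
  have hωr : ω ^ r = -1 := by
    rw [hω, ← Complex.exp_nat_mul]
    have : (r : ℂ) * (((Real.pi / r : ℝ) : ℂ) * Complex.I) = Real.pi * Complex.I := by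
      have h1 : (r : ℂ) ≠ 0 := by exact_mod_cast hr
      push_cast
      field_simp
    rw [this, Complex.exp_pi_mul_I]
  have hrank : 1 < Module.rank ℝ ℂ := by
    rw [Complex.rank_real_complex]
    norm_num
  obtain ⟨ray, hray⟩ : ∃ ray : Set ℂ, ray = (fun s : ℝ => (s : ℂ) * ω) '' Set.Icc 1 R := ⟨_, rfl⟩
  obtain ⟨S, hS⟩ : ∃ S : Set ℂ, S = Metric.sphere (0 : ℂ) 1 ∪ ray ∪ Metric.sphere (0 : ℂ) R :=
    ⟨_, rfl⟩
  have hSpre : IsPreconnected S := by
    rw [hS]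
    have h1 : IsPreconnected ray := by
      rw [hray]
      exact isPreconnected_Icc.image _ (by fun_prop)
    have m1 : ω ∈ ray := by
      rw [hray]
      exact ⟨1, ⟨le_rfl, hR1⟩, by simp⟩
    have m2 : (R : ℂ) * ω ∈ ray := by
      rw [hray]
      exact ⟨R, ⟨hR1, le_rfl⟩, rfl⟩
    refine IsPreconnected.union ((R : ℂ) * ω) (Or.inr m2) ?_ (IsPreconnected.union ω ?_ m1
      (isPreconnected_sphere hrank 0 1) h1) (isPreconnected_sphere hrank 0 R)
    · rw [mem_sphere_zero_iff_norm, norm_mul, hωn, mul_one, Complex.norm_real,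
        Real.norm_of_nonneg hR0.le]
    · rw [mem_sphere_zero_iff_norm, hωn]
  have hSsub : S ⊆ {x : ℂ | x ^ r ∈ Pl 2} := by
    rw [hS]
    rintro x ((hx | hx) | hx)
    · rw [mem_sphere_zero_iff_norm] at hx
      show x ^ r ∈ Pl 2
      apply unit_mem
      rw [norm_pow, hx, one_pow]
    · rw [hray] at hx
      obtain ⟨s, ⟨hs1, hs2⟩, rfl⟩ := hx
      show ((s : ℂ) * ω) ^ r ∈ Pl 2
      rw [mul_pow, hωr, mul_neg, mul_one]
      have := neg_mem (s := s ^ r) (one_le_pow₀ hs1) (by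
        rw [← hRr]
        exact pow_le_pow_left₀ (by linarith) hs2 r)
      push_cast at this
      exact this
    · rw [mem_sphere_zero_iff_norm] at hx
      show x ^ r ∈ Pl 2
      apply nine_mem
      rw [norm_pow, hx, hRr]
  refine isPreconnected_of_forall (1 : ℂ) fun x hx => ?_
  have hx' : x ^ r ∈ Pl 2 := hx
  have h1S : (1 : ℂ) ∈ S := by
    rw [hS]
    left; left
    rw [mem_sphere_zero_iff_norm, norm_one]
  have hb := hx'.1
  have ha := hx'.2 0 (by norm_num)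
  norm_num at ha hb
  have hxpos : 1 ≤ ‖x‖ := by
    by_contra h
    push Not at h
    have : ‖x‖ ^ r < 1 := pow_lt_one₀ (norm_nonneg _) h hr
    linarith
  have hx0 : (0 : ℝ) < ‖x‖ := by linarith
  have hxR : ‖x‖ ≤ R := by
    by_contra h
    push Not at h
    have := pow_lt_pow_left₀ h hR0.le hr
    rw [hRr] at this
    linarith
  rcases le_total (4 * (x ^ r).re) ((x ^ r).re ^ 2 + (x ^ r).im ^ 2) with hc | hc
  · -- outward
    refine ⟨S ∪ (fun s : ℝ => (s : ℂ) * x) '' Set.Icc 1 (R / ‖x‖), ?_, Or.inl h1S, Or.inr ?_, ?_⟩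
    · rintro y (hy | ⟨s, ⟨hs1, hs2⟩, rfl⟩)
      · exact hSsub hy
      · show ((s : ℂ) * x) ^ r ∈ Pl 2
        have hs0 : 0 ≤ s := by linarith
        have e : ((s : ℂ) * x) ^ r = ((s ^ r : ℝ) : ℂ) * x ^ r := by
          rw [mul_pow]; push_cast; rfl
        have e2 : ‖((s ^ r : ℝ) : ℂ) * x ^ r‖ = (s * ‖x‖) ^ r := by
          rw [← e, norm_pow, norm_mul, Complex.norm_real, Real.norm_of_nonneg hs0]
        rw [e]
        apply smul_mem hx'
        · rw [e2]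
          exact one_le_pow₀ (by nlinarith)
        · rw [e2, ← hRr]
          apply pow_le_pow_left₀ (by positivity)
          rwa [le_div_iff₀ hx0] at hs2
        · left
          exact ⟨one_le_pow₀ hs1, hc⟩
    · exact ⟨1, ⟨le_rfl, by rw [le_div_iff₀ hx0]; linarith⟩, by simp⟩
    · refine IsPreconnected.union (((R / ‖x‖ : ℝ) : ℂ) * x) ?_ ?_ hSpre
        (isPreconnected_Icc.image _ (by fun_prop))
      · rw [hS]
        right
        rw [mem_sphere_zero_iff_norm, norm_mul, Complex.norm_real,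
          Real.norm_of_nonneg (by positivity)]
        field_simp
      · exact ⟨R / ‖x‖, ⟨by rw [le_div_iff₀ hx0]; linarith, le_rfl⟩, rfl⟩
  · -- inward
    refine ⟨S ∪ (fun s : ℝ => (s : ℂ) * x) '' Set.Icc (1 / ‖x‖) 1, ?_, Or.inl h1S, Or.inr ?_, ?_⟩
    · rintro y (hy | ⟨s, ⟨hs1, hs2⟩, rfl⟩)
      · exact hSsub hy
      · show ((s : ℂ) * x) ^ r ∈ Pl 2
        have hs0 : 0 ≤ s := le_trans (by positivity) hs1
        have e : ((s : ℂ) * x) ^ r = ((s ^ r : ℝ) : ℂ) * x ^ r := by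
          rw [mul_pow]; push_cast; rfl
        have e2 : ‖((s ^ r : ℝ) : ℂ) * x ^ r‖ = (s * ‖x‖) ^ r := by
          rw [← e, norm_pow, norm_mul, Complex.norm_real, Real.norm_of_nonneg hs0]
        rw [e]
        apply smul_mem hx'
        · rw [e2]
          apply one_le_pow₀
          rwa [div_le_iff₀ hx0] at hs1
        · rw [e2, ← hRr]
          apply pow_le_pow_left₀ (by positivity)
          nlinarith
        · right
          exact ⟨pow_le_one₀ hs0 hs2, hc⟩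
    · exact ⟨1, ⟨by rw [div_le_iff₀ hx0]; linarith, le_rfl⟩, by simp⟩
    · refine IsPreconnected.union (((1 / ‖x‖ : ℝ) : ℂ) * x) ?_ ?_ hSpre
        (isPreconnected_Icc.image _ (by fun_prop))
      · rw [hS]
        left; left
        rw [mem_sphere_zero_iff_norm, norm_mul, Complex.norm_real,
          Real.norm_of_nonneg (by positivity)]
        field_simp
      · exact ⟨1 / ‖x‖, ⟨le_rfl, by rw [div_le_iff₀ hx0]; linarith⟩, rfl⟩

/-- The level sets are connected. -/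
theorem MM_connected (hr : r ≠ 0) : IsConnected (MM r) := by
  have h1 : MM r = (fun q : ℂ × ℝ => ((q.1, (√(GG 2 (q.1 ^ r)) : ℝ) *
      Complex.exp (q.2 * Complex.I)) : ℂ × ℂ)) '' ({x : ℂ | x ^ r ∈ Pl 2} ×ˢ Set.univ) := by
    ext ⟨x, z⟩
    constructor
    · intro h
      have h2 : ‖z‖ ^ 2 = GG 2 (x ^ r) := h
      refine ⟨(x, z.arg), ⟨MM_pow h, trivial⟩, ?_⟩
      simp only
      rw [← h2, Real.sqrt_sq (norm_nonneg _), Complex.norm_mul_exp_arg_mul_I]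
    · rintro ⟨⟨x', t⟩, ⟨hx, _⟩, h⟩
      have hx' : x' ^ r ∈ Pl 2 := hx
      obtain ⟨rfl, rfl⟩ := Prod.ext_iff.1 h
      show ‖((√(GG 2 (x' ^ r)) : ℝ) : ℂ) * Complex.exp (t * Complex.I)‖ ^ 2 = GG 2 (x' ^ r)
      rw [norm_mul, Complex.norm_exp_ofReal_mul_I, mul_one, Complex.norm_real,
        Real.norm_of_nonneg (Real.sqrt_nonneg _), Real.sq_sqrt (GG_nonneg hx')]
  have hcont : Continuous (fun q : ℂ × ℝ => ((q.1, (√(GG 2 (q.1 ^ r)) : ℝ) *
      Complex.exp (q.2 * Complex.I)) : ℂ × ℂ)) := by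
    refine Continuous.prodMk continuous_fst (Continuous.mul ?_ (by fun_prop))
    exact Complex.continuous_ofReal.comp (((GG_cont 2).comp (by fun_prop)).sqrt)
  rw [h1]
  have h3 : (1 : ℂ) ^ r ∈ Pl 2 := by
    rw [one_pow]
    exact unit_mem norm_one
  have h4 : IsConnected (({x : ℂ | x ^ r ∈ Pl 2} ×ˢ Set.univ : Set (ℂ × ℝ))) :=
    ⟨⟨((1 : ℂ), (0 : ℝ)), Set.mk_mem_prod h3 trivial⟩, (pre_connected hr).prod isPreconnected_univ⟩
  exact h4.image _ hcont.continuousOn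

end

end Pool.Agent.Lib.MP_84984d_gt
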