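import Pool.Agent.Lib.MP_84984d_gt.Split

set_option autoImplicit false

/-!
The cyclic covers and their maps to the circle.
-/

namespace Pool.Agent.Lib.MP_84984d_gt

open unitInterval Topology Finset

/-- The level sets `|z|² = GG 2 (x ^ r)`. -/
def MM (r : ℕ) : Set (ℂ × ℂ) := {p | ‖p.2‖ ^ 2 = GG 2 (p.1 ^ r)}

/-- The argument as an angle. -/
noncomputable def ag (x : ℂ) : Real.Angle := (x.arg : Real.Angle)

theorem ag_cont {X : Type*} [TopologicalSpace X] {f : X → ℂ} (hf : Continuous f)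
    (h : ∀ x, f x ≠ 0) : Continuous fun x => ag (f x) := by
  rw [continuous_iff_continuousAt]
  intro x
  exact (Complex.continuousAt_arg_coe_angle (h x)).comp hf.continuousAt

theorem ag_mul {x y : ℂ} (hx : x ≠ 0) (hy : y ≠ 0) : ag (x * y) = ag x + ag y :=
  Complex.arg_mul_coe_angle hx hy

theorem ag_prod {ι : Type*} (s : Finset ι) (f : ι → ℂ) (h : ∀ i ∈ s, f i ≠ 0) :
    ag (∏ i ∈ s, f i) = ∑ i ∈ s, ag (f i) := by
  classical
  induction s using Finset.induction_on with
  | empty => simp [ag]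
  | insert a s ha ih =>
    rw [prod_insert ha, sum_insert ha, ag_mul (h a (mem_insert_self _ _))
      (prod_ne_zero_iff.2 fun i hi => h i (mem_insert_of_mem hi)),
      ih fun i hi => h i (mem_insert_of_mem hi)]

theorem ag_exp {ρ : ℝ} (hρ : 0 < ρ) (t : ℝ) :
    ag (ρ * Complex.exp (t * Complex.I)) = (t : Real.Angle) := by
  unfold ag
  rw [Complex.exp_mul_I, ← Complex.ofReal_cos, ← Complex.ofReal_sin, ← Real.Angle.cos_coe,
    ← Real.Angle.sin_coe]
  exact Complex.arg_mul_cos_add_sin_mul_I_coe_angle hρ t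

/-- A loop which is null homotopic in `ℂ \ 0` has a closed logarithm. -/
theorem null_loop (F : unitInterval × unitInterval → ℂ) (cF : Continuous F) (hF : ∀ p, F p ≠ 0)
    (h0 : ∀ t, F (0, t) = F (0, 0)) (h1 : ∀ τ, F (τ, 0) = F (τ, 1)) :
    ∃ ℓ : unitInterval → ℝ, Continuous ℓ ∧ (∀ t, (ℓ t : Real.Angle) = ag (F (1, t))) ∧
      ℓ 1 = ℓ 0 := by
  obtain ⟨L, cL, eL, zL⟩ := exists_lift (fun p => ag (F p)) (ag_cont cF hF)
    (fun _ => (ag (F (0, 0))).toReal) continuous_const (by
      intro t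
      rw [Real.Angle.coe_toReal, h0 t])
  have h2 := const_of (fun τ : unitInterval => L (τ, 1) - L (τ, 0)) (by fun_prop) (by
    intro τ
    rw [Real.Angle.coe_sub, eL, eL, h1, sub_self]) 0 1
  simp only [zL, sub_self] at h2
  exact ⟨fun t => L (1, t), by fun_prop, fun t => eL (1, t), by linarith⟩

/-- Relations between the degrees. -/
theorem loop_rel {M ι : Type*} [Fintype ι] [TopologicalSpace M] {u : ι → M → Real.Angle}
    {n : ι → ℤ} {θ : M → ℝ} (cθ : Continuous θ)
    (h : ∀ x, (θ x : Real.Angle) = ∑ j, n j • u j x) {γ : unitInterval → M} (cγ : Continuous γ)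
    (h01 : γ 1 = γ 0) (ℓ : ι → unitInterval → ℝ) (cℓ : ∀ j, Continuous (ℓ j))
    (hℓ : ∀ j t, (ℓ j t : Real.Angle) = u j (γ t)) :
    ∑ j, (n j : ℝ) * (ℓ j 1 - ℓ j 0) = 0 := by
  have h2 := const_of (fun t : unitInterval => ∑ j, (n j : ℝ) * ℓ j t - θ (γ t))
    ((continuous_finsetSum _ fun j _ => continuous_const.mul (cℓ j)).sub (cθ.comp cγ)) (by
      intro t
      rw [Real.Angle.coe_sub, h]
      have h3 : ((∑ j, (n j : ℝ) * ℓ j t : ℝ) : Real.Angle) = ∑ j, n j • u j (γ t) := by
        have := map_sum Real.Angle.coeHom (fun j => n j • ℓ j t) univ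
        simp only [Real.Angle.coe_coeHom, Real.Angle.coe_zsmul, hℓ] at this
        rw [← this]
        congr 1
        exact sum_congr rfl fun j _ => by rw [zsmul_eq_mul]
      rw [h3, sub_self]) 0 1
  simp only [h01] at h2
  have h3 : ∑ j, (n j : ℝ) * ℓ j 1 = ∑ j, (n j : ℝ) * ℓ j 0 := by linarith
  simp only [mul_sub, sum_sub_distrib]
  linarith

section

variable {r : ℕ}

/-- The primitive root of unity. -/
noncomputable def zt (r : ℕ) : ℂ := Complex.exp (2 * Real.pi * Complex.I / r)

theorem zt_prim (hr : r ≠ 0) : IsPrimitiveRoot (zt r) r := Complex.isPrimitiveRoot_exp r hr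

/-- The `r`-th root. -/
noncomputable def rt (r : ℕ) (y : ℂ) : ℂ := y ^ ((r : ℂ)⁻¹)

theorem rt_pow (hr : r ≠ 0) (y : ℂ) : rt r y ^ r = y := Complex.cpow_nat_inv_pow y hr

theorem rt_cont {X : Type*} [TopologicalSpace X] {f : X → ℂ} (hf : Continuous f)
    (h : ∀ x, 0 < (f x).re) : Continuous fun x => rt r (f x) :=
  hf.cpow continuous_const fun x => Or.inl (h x)

/-- The ramification points. -/
noncomputable def cc (r j : ℕ) : ℂ := zt r ^ j * rt r 4

theorem cc_pow (hr : r ≠ 0) (j : ℕ) : cc r j ^ r = 4 := by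
  unfold cc
  rw [mul_pow, rt_pow hr, ← pow_mul, mul_comm j, pow_mul, (zt_prim hr).pow_eq_one, one_pow,
    one_mul]

theorem prod_cc (hr : r ≠ 0) (x : ℂ) : ∏ j ∈ range r, (x - cc r j) = x ^ r - 4 := by
  have h := X_pow_sub_C_eq_prod (zt_prim hr) (Nat.pos_of_ne_zero hr) (rt_pow hr 4)
  have h1 := congrArg (Polynomial.eval x) h
  rw [Polynomial.eval_prod] at h1
  simp only [Polynomial.eval_sub, Polynomial.eval_pow, Polynomial.eval_X, Polynomial.eval_C]
    at h1
  exact h1.symm

theorem MM_pow {p : ℂ × ℂ} (h : p ∈ MM r) : p.1 ^ r ∈ Pl 2 :=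
  mem_Pl_of (by rw [← (show ‖p.2‖ ^ 2 = GG 2 (p.1 ^ r) from h)]; positivity)

theorem one_le_pow' {p : ℂ × ℂ} (h : p ∈ MM r) : 1 ≤ ‖p.1 ^ r‖ := by
  have := (MM_pow h).2 0 (by norm_num)
  simpa using this

theorem one_le_sub {p : ℂ × ℂ} (h : p ∈ MM r) : 1 ≤ ‖p.1 ^ r - 4‖ := by
  have := (MM_pow h).2 1 (by norm_num)
  simpa using this

theorem fst_ne (hr : r ≠ 0) {p : ℂ × ℂ} (h : p ∈ MM r) : p.1 ≠ 0 := by
  intro h0
  have := one_le_pow' h
  rw [h0, zero_pow hr, norm_zero] at this
  linarith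

theorem sub_ne (hr : r ≠ 0) {p : ℂ × ℂ} (h : p ∈ MM r) (j : ℕ) : p.1 - cc r j ≠ 0 := by
  intro h0
  have := one_le_sub h
  rw [sub_eq_zero.1 h0, cc_pow hr, sub_self, norm_zero] at this
  linarith

/-- The point over `x`. -/
theorem mk_mem {x : ℂ} (h : x ^ r ∈ Pl 2) : (x, ((√(GG 2 (x ^ r)) : ℝ) : ℂ)) ∈ MM r := by
  show ‖((√(GG 2 (x ^ r)) : ℝ) : ℂ)‖ ^ 2 = GG 2 (x ^ r)
  rw [Complex.norm_real, Real.norm_of_nonneg (Real.sqrt_nonneg _), Real.sq_sqrt (GG_nonneg h)]

theorem circ_mem {t : ℝ} : (4 + 2 * Complex.exp (t * Complex.I) : ℂ) ∈ Pl 2 := by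
  have h1 : ‖Complex.exp (t * Complex.I)‖ = 1 := Complex.norm_exp_ofReal_mul_I t
  have h2 : ‖(2 * Complex.exp (t * Complex.I) : ℂ)‖ = 2 := by
    rw [norm_mul, h1]; norm_num
  have h4 : ‖(4 : ℂ)‖ = 4 := by norm_num
  have h3 : ‖(4 + 2 * Complex.exp (t * Complex.I) : ℂ)‖ ≤ 6 := by
    have := norm_add_le (4 : ℂ) (2 * Complex.exp (t * Complex.I))
    rw [h4, h2] at this
    linarith
  have h5 : 2 ≤ ‖(4 + 2 * Complex.exp (t * Complex.I) : ℂ)‖ := by
    have := norm_sub_le (4 + 2 * Complex.exp (t * Complex.I) : ℂ) (2 * Complex.exp (t * Complex.I))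
    rw [add_sub_cancel_right, h4, h2] at this
    linarith
  refine ⟨by push_cast; linarith, fun j hj => ?_⟩
  interval_cases j
  · simp only [Nat.cast_zero, mul_zero, sub_zero]
    linarith
  · simp only [Nat.cast_one, mul_one, add_sub_cancel_left]
    rw [h2]
    norm_num

theorem circ_mem' {t : ℝ} : (2 * Complex.exp (t * Complex.I) : ℂ) ∈ Pl 2 := by
  have h1 : ‖Complex.exp (t * Complex.I)‖ = 1 := Complex.norm_exp_ofReal_mul_I t
  have h2 : ‖(2 * Complex.exp (t * Complex.I) : ℂ)‖ = 2 := by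
    rw [norm_mul, h1]; norm_num
  have h4 : ‖(4 : ℂ)‖ = 4 := by norm_num
  have h5 : 2 ≤ ‖(2 * Complex.exp (t * Complex.I) - 4 : ℂ)‖ := by
    have := norm_sub_norm_le (4 : ℂ) (2 * Complex.exp (t * Complex.I))
    rw [h4, h2, norm_sub_rev] at this
    linarith
  refine ⟨by rw [h2]; norm_num, fun j hj => ?_⟩
  interval_cases j
  · simp only [Nat.cast_zero, mul_zero, sub_zero]
    linarith
  · simp only [Nat.cast_one, mul_one]
    linarith

theorem exp_eq (t : ℝ) : Complex.exp ((2 * Real.pi * t : ℝ) * Complex.I) =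
    Complex.exp (2 * Real.pi * t * Complex.I) := by
  push_cast
  rfl

theorem exp_one : Complex.exp (2 * Real.pi * (1 : ℝ) * Complex.I) = 1 := by
  rw [Complex.ofReal_one, mul_one]
  exact Complex.exp_two_pi_mul_I

theorem exp_zero : Complex.exp (2 * Real.pi * (0 : ℝ) * Complex.I) = 1 := by simp

/-- Every Heegaard splitting of the cover of degree `r` has genus at least `r + 1`. -/
theorem genus_ge {g : ℕ} (hr : r ≠ 0) (h : HasSplitting (MM r) g) : r + 1 ≤ g := by
  by_contra hlt
  push Not at hlt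
  have c1 : Continuous fun p : MM r => (p : ℂ × ℂ).1 := by fun_prop
  obtain ⟨n, hn, θ, cθ, hθ⟩ := h.exists_rel (m := r + 1) hlt
    (Fin.cons (fun p => ag (p : ℂ × ℂ).1) fun (j : Fin r) p => ag ((p : ℂ × ℂ).1 - cc r j))
    (by
      intro j
      refine Fin.cases ?_ (fun j => ?_) j
      · exact ag_cont c1 fun p => fst_ne hr p.2
      · exact ag_cont (c1.sub continuous_const) fun p => sub_ne hr p.2 j)
  -- satellites
  have hsat : ∀ k : Fin r, n k.succ = 0 := by
    intro k
    obtain ⟨X, hX⟩ : ∃ X : unitInterval × unitInterval → ℂ, X = fun p => zt r ^ (k : ℕ) *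
      rt r (4 + 2 * (p.1 : ℝ) * Complex.exp (2 * Real.pi * (p.2 : ℝ) * Complex.I)) := ⟨_, rfl⟩
    have hXp : ∀ p, X p ^ r =
        4 + 2 * (p.1 : ℝ) * Complex.exp (2 * Real.pi * (p.2 : ℝ) * Complex.I) := by
      intro p
      rw [hX]
      simp only
      rw [mul_pow, rt_pow hr, ← pow_mul, mul_comm (k : ℕ), pow_mul, (zt_prim hr).pow_eq_one,
        one_pow, one_mul]
    have hnorm : ∀ p : unitInterval × unitInterval,
        ‖(2 * (p.1 : ℝ) * Complex.exp (2 * Real.pi * (p.2 : ℝ) * Complex.I) : ℂ)‖ ≤ 2 := by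
      intro p
      rw [← exp_eq, norm_mul, Complex.norm_exp_ofReal_mul_I, mul_one, norm_mul,
        Complex.norm_real, Real.norm_of_nonneg p.1.2.1]
      have := p.1.2.2
      norm_num
      linarith
    have hre : ∀ p : unitInterval × unitInterval,
        0 < (4 + 2 * (p.1 : ℝ) * Complex.exp (2 * Real.pi * (p.2 : ℝ) * Complex.I) : ℂ).re := by
      intro p
      have h1 := Complex.abs_re_le_norm
        (2 * (p.1 : ℝ) * Complex.exp (2 * Real.pi * (p.2 : ℝ) * Complex.I) : ℂ)
      have h2 := hnorm p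
      have h3 := abs_le.1 (h1.trans h2)
      rw [Complex.add_re]
      have : (4 : ℂ).re = 4 := by simp
      linarith [h3.1]
    have cX : Continuous X := by
      rw [hX]
      exact continuous_const.mul (rt_cont (by fun_prop) hre)
    have hX0 : ∀ p, X p ≠ 0 := by
      intro p h0
      have h1 := hXp p
      have h2 := hre p
      rw [← h1, h0, zero_pow hr] at h2
      simp at h2
    have hX1 : ∀ t, X (0, t) = X (0, 0) := by
      intro t
      rw [hX]
      simp
    have hX2 : ∀ τ, X (τ, 0) = X (τ, 1) := by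
      intro τ
      rw [hX]
      simp only [Set.Icc.coe_one, Set.Icc.coe_zero, exp_one, exp_zero]
    have hXc : ∀ j : Fin r, j ≠ k → ∀ p, X p - cc r j ≠ 0 := by
      intro j hj p h0
      have h1 := hXp p
      rw [sub_eq_zero.1 h0, cc_pow hr] at h1
      have h2 : (2 * (p.1 : ℝ) * Complex.exp (2 * Real.pi * (p.2 : ℝ) * Complex.I) : ℂ) = 0 := by
        linear_combination -h1
      have h3 : (p.1 : ℝ) = 0 := by
        have h4 := mul_eq_zero.1 h2
        rcases h4 with h4 | h4
        · have h5 := (mul_eq_zero.1 h4).resolve_left (by norm_num)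
          exact_mod_cast h5
        · exact absurd h4 (Complex.exp_ne_zero _)
      have h6 : X p = cc r k := by
        rw [hX]
        simp only [h3]
        unfold cc
        simp
      rw [h6, sub_eq_zero] at h0
      unfold cc at h0
      have h7 : rt r 4 ≠ 0 := by
        intro h8
        have := rt_pow hr (4 : ℂ)
        rw [h8, zero_pow hr] at this
        norm_num at this
      have h9 := mul_right_cancel₀ h7 h0
      exact hj (Fin.ext ((zt_prim hr).pow_inj k.isLt j.isLt h9).symm)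
    obtain ⟨ℓ₀, cℓ₀, eℓ₀, zℓ₀⟩ := null_loop X cX hX0 hX1 hX2
    have hex : ∀ j : Fin r, ∃ ℓ : unitInterval → ℝ, Continuous ℓ ∧
        (j ≠ k → ∀ t, (ℓ t : Real.Angle) = ag (X (1, t) - cc r j)) ∧ ℓ 1 = ℓ 0 := by
      intro j
      by_cases hj : j = k
      · exact ⟨fun _ => 0, continuous_const, fun h => absurd hj h, rfl⟩
      · obtain ⟨ℓ, c, e, z⟩ := null_loop (fun p => X p - cc r j) (cX.sub continuous_const)
          (hXc j hj) (fun t => by rw [hX1]) (fun τ => by rw [hX2])
        exact ⟨ℓ, c, fun _ => e, z⟩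
    choose ℓ cℓ eℓ zℓ using hex
    have hγ : ∀ t : unitInterval, X (1, t) ^ r =
        4 + 2 * Complex.exp ((2 * Real.pi * (t : ℝ) : ℝ) * Complex.I) := by
      intro t
      rw [hXp, exp_eq]
      simp
    have hmem : ∀ t : unitInterval, X (1, t) ^ r ∈ Pl 2 := by
      intro t
      rw [hγ]
      exact circ_mem
    obtain ⟨γ, hγdef⟩ : ∃ γ : unitInterval → MM r, γ = fun t => ⟨_, mk_mem (hmem t)⟩ := ⟨_, rfl⟩
    have cX1 : Continuous fun t : unitInterval => X (1, t) :=
      cX.comp (Continuous.prodMk continuous_const continuous_id)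
    have cγ : Continuous γ := by
      rw [hγdef]
      refine Continuous.subtype_mk (Continuous.prodMk cX1 ?_) _
      exact Complex.continuous_ofReal.comp (((GG_cont 2).comp (cX1.pow r)).sqrt)
    have hγ1 : ∀ t, (γ t : ℂ × ℂ).1 = X (1, t) := by
      intro t
      rw [hγdef]
    have h01 : γ 1 = γ 0 := by
      rw [hγdef]
      apply Subtype.ext
      simp only [hX2]
    -- the logarithm of the factor `k`
    have hne : ∀ t, ∀ j : Fin r, X (1, t) - cc r j ≠ 0 := by
      intro t j
      rw [← hγ1]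
      exact sub_ne hr (γ t).2 j
    have hk : ∀ t : unitInterval, ((2 * Real.pi * (t : ℝ) - ∑ j ∈ univ.erase k, ℓ j t : ℝ) :
        Real.Angle) = ag (X (1, t) - cc r k) := by
      intro t
      have h1 : ag (∏ j : Fin r, (X (1, t) - cc r j)) = ((2 * Real.pi * (t : ℝ) : ℝ) :
          Real.Angle) := by
        rw [Fin.prod_univ_eq_prod_range (fun j => X (1, t) - cc r j) r, prod_cc hr, hγ,
          add_sub_cancel_left]
        have := ag_exp (ρ := 2) (by norm_num) (2 * Real.pi * (t : ℝ))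
        rw [← this]
        norm_num
      rw [ag_prod _ _ (fun j _ => hne t j), ← add_sum_erase univ _ (mem_univ k)] at h1
      have h2 : ((∑ j ∈ univ.erase k, ℓ j t : ℝ) : Real.Angle) =
          ∑ j ∈ univ.erase k, ag (X (1, t) - cc r j) := by
        have := map_sum Real.Angle.coeHom (fun j => ℓ j t) (univ.erase k)
        simp only [Real.Angle.coe_coeHom] at this
        rw [this]
        exact sum_congr rfl fun j hj => eℓ j (ne_of_mem_erase hj) t
      rw [Real.Angle.coe_sub, h2, ← h1, add_sub_cancel_right]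
    have key := loop_rel cθ hθ cγ h01
      (Fin.cons ℓ₀ fun j t => if j = k then 2 * Real.pi * (t : ℝ) - ∑ i ∈ univ.erase k, ℓ i t
        else ℓ j t)
      (by
        intro j
        refine Fin.cases ?_ (fun j => ?_) j
        · exact cℓ₀
        · simp only [Fin.cons_succ]
          split_ifs
          · exact (by fun_prop : Continuous fun t : unitInterval => 2 * Real.pi * (t : ℝ)).sub
              (continuous_finsetSum _ fun i _ => cℓ i)
          · exact cℓ j)
      (by
        intro j t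
        refine Fin.cases ?_ (fun j => ?_) j
        · simp only [Fin.cons_zero]
          rw [eℓ₀, hγ1]
        · simp only [Fin.cons_succ]
          rw [hγ1]
          split_ifs with hj
          · rw [hj]; exact hk t
          · exact eℓ j hj t)
    rw [Fin.sum_univ_succ] at key
    simp only [Fin.cons_zero, Fin.cons_succ, zℓ₀, sub_self, mul_zero, zero_add] at key
    rw [← add_sum_erase univ _ (mem_univ k)] at key
    have hz : ∀ j ∈ univ.erase k, (n j.succ : ℝ) *
        ((if j = k then 2 * Real.pi * ((1 : unitInterval) : ℝ) - ∑ i ∈ univ.erase k, ℓ i 1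
          else ℓ j 1) - (if j = k then 2 * Real.pi * ((0 : unitInterval) : ℝ) -
            ∑ i ∈ univ.erase k, ℓ i 0 else ℓ j 0)) = 0 := by
      intro j hj
      rw [if_neg (ne_of_mem_erase hj), if_neg (ne_of_mem_erase hj), zℓ, sub_self, mul_zero]
    rw [sum_congr rfl hz, sum_const_zero, add_zero] at key
    simp only [if_true, zℓ, Set.Icc.coe_one, Set.Icc.coe_zero] at key
    have h5 : (n k.succ : ℝ) * (2 * Real.pi) = 0 := by linear_combination key
    have h6 : (2 * Real.pi : ℝ) ≠ 0 := by positivity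
    exact_mod_cast (mul_eq_zero.1 h5).resolve_right h6
  -- the centre
  have hcen : n 0 = 0 := by
    obtain ⟨X, hX⟩ : ∃ X : unitInterval → ℂ, X = fun t : unitInterval =>
      (((2 : ℝ) ^ ((r : ℝ)⁻¹) : ℝ) : ℂ) *
      Complex.exp ((2 * Real.pi * (t : ℝ) : ℝ) * Complex.I) := ⟨_, rfl⟩
    have hXp : ∀ t, X t ^ r = 2 * Complex.exp ((r * (2 * Real.pi * (t : ℝ)) : ℝ) *
        Complex.I) := by
      intro t
      rw [hX]
      simp only
      rw [mul_pow, ← Complex.exp_nat_mul, ← Complex.ofReal_pow,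
        Real.rpow_inv_natCast_pow (by norm_num) hr]
      congr 2
      push_cast
      ring
    have cX : Continuous X := by
      rw [hX]
      fun_prop
    have hmem : ∀ t : unitInterval, X t ^ r ∈ Pl 2 := by
      intro t
      rw [hXp]
      exact circ_mem'
    obtain ⟨γ, hγdef⟩ : ∃ γ : unitInterval → MM r, γ = fun t => ⟨_, mk_mem (hmem t)⟩ := ⟨_, rfl⟩
    have cγ : Continuous γ := by
      rw [hγdef]
      refine Continuous.subtype_mk (Continuous.prodMk cX ?_) _
      exact Complex.continuous_ofReal.comp (((GG_cont 2).comp (cX.pow r)).sqrt)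
    have hX01 : X 1 = X 0 := by
      rw [hX]
      simp only [Set.Icc.coe_one, Set.Icc.coe_zero, exp_eq, exp_one, exp_zero]
    have h01 : γ 1 = γ 0 := by
      rw [hγdef]
      apply Subtype.ext
      simp only [hX01]
    have key := loop_rel (ι := Unit) (u := fun _ (p : MM r) => ag (p : ℂ × ℂ).1)
      (n := fun _ => n 0) cθ (by
        intro p
        rw [hθ, Fin.sum_univ_succ]
        simp [hsat]) cγ h01 (fun _ t => 2 * Real.pi * (t : ℝ)) (by intro _; fun_prop) (by
        intro _ t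
        rw [hγdef]
        simp only
        rw [hX]
        simp only
        rw [ag_exp (by positivity)])
    simp at key
    exact_mod_cast key
  apply hn
  funext j
  refine Fin.cases hcen hsat j

end

end Pool.Agent.Lib.MP_84984d_gt
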