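import Pool.Agent.Lib.MP_84984d_gt.Rel

set_option autoImplicit false

/-!
Logarithms on the boundary of a handlebody extend; Heegaard splittings and maps to the circle.
-/

namespace Pool.Agent.Lib.MP_84984d_gt

open unitInterval Topology Finset

section

variable {g : ℕ}

theorem GG_add (y : ℂ) : Continuous fun t : ℝ => GG g (y + t * Complex.I) :=
  (GG_cont g).comp (by fun_prop)

/-- The vertical half line starting in `Pl g` reaches the boundary. -/
theorem exists_first {y : ℂ} (hy : y ∈ Pl g) : ∃ T : ℝ, 0 ≤ T ∧ GG g (y + T * Complex.I) = 0 ∧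
    ∀ t : ℝ, 0 ≤ t → t ≤ T → 0 ≤ GG g (y + t * Complex.I) := by
  have hR : (0 : ℝ) ≤ 4 * g + 1 := by positivity
  have hnot : GG g (y + ((8 * g + 4 : ℝ) : ℂ) * Complex.I) ≤ 0 := by
    by_contra h
    push Not at h
    have h1 := mem_Pl_of h.le
    have h2 : ‖((8 * g + 4 : ℝ) : ℂ) * Complex.I‖ = 8 * g + 4 := by
      rw [norm_mul, Complex.norm_I, mul_one, Complex.norm_real, Real.norm_of_nonneg (by positivity)]
    have h3 : ‖((8 * g + 4 : ℝ) : ℂ) * Complex.I‖ ≤
        ‖y + ((8 * g + 4 : ℝ) : ℂ) * Complex.I‖ + ‖y‖ := by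
      have := norm_sub_le (y + ((8 * g + 4 : ℝ) : ℂ) * Complex.I) y
      rwa [add_sub_cancel_left] at this
    have h4 := h1.1
    have h5 := hy.1
    rw [h2] at h3
    linarith
  have hcomp : IsCompact (Set.Icc (0 : ℝ) (8 * g + 4) ∩
      {t : ℝ | GG g (y + t * Complex.I) ≤ 0}) :=
    isCompact_Icc.inter_right (isClosed_le (GG_add y) continuous_const)
  obtain ⟨T, hT, hmin⟩ := hcomp.exists_isLeast ⟨8 * g + 4, ⟨by positivity, le_rfl⟩, hnot⟩
  obtain ⟨⟨hT0, hT1⟩, hT2⟩ := hT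
  have hT2' : GG g (y + T * Complex.I) ≤ 0 := hT2
  have h0 : 0 ≤ GG g (y + ((0 : ℝ) : ℂ) * Complex.I) := by
    simpa using GG_nonneg hy
  have hzero : GG g (y + T * Complex.I) = 0 := by
    obtain ⟨t, ht, ht0⟩ : ∃ t ∈ Set.Icc 0 T, GG g (y + t * Complex.I) = 0 := by
      have := intermediate_value_Icc' hT0 (f := fun t : ℝ => GG g (y + t * Complex.I))
        (GG_add y).continuousOn
      exact this ⟨hT2', h0⟩
    have h1 : T ≤ t := hmin ⟨⟨ht.1, ht.2.trans hT1⟩, ht0.le⟩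
    rw [le_antisymm h1 ht.2]
    exact ht0
  refine ⟨T, hT0, hzero, fun t h1 h2 => ?_⟩
  by_contra h3
  push Not at h3
  have h4 : T ≤ t := hmin ⟨⟨h1, h2.trans hT1⟩, h3.le⟩
  rw [le_antisymm h2 h4, hzero] at h3
  exact lt_irrefl _ h3

/-- the path used in the extension -/
noncomputable def pth (g : ℕ) (p : unitInterval × Hb g) : Hb g :=
  ⟨((p.2 : ℂ × ℝ).1, (1 - (p.1 : ℝ)) * √(GG g (p.2 : ℂ × ℝ).1) + (p.1 : ℝ) * (p.2 : ℂ × ℝ).2), by
    have h1 : (p.2 : ℂ × ℝ).2 ^ 2 ≤ GG g (p.2 : ℂ × ℝ).1 := p.2.2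
    have h0 : 0 ≤ GG g (p.2 : ℂ × ℝ).1 := (sq_nonneg _).trans h1
    obtain ⟨m, hm⟩ : ∃ m, m = √(GG g (p.2 : ℂ × ℝ).1) := ⟨_, rfl⟩
    have hm0 : 0 ≤ m := by rw [hm]; positivity
    have hm2 : m ^ 2 = GG g (p.2 : ℂ × ℝ).1 := by rw [hm, Real.sq_sqrt h0]
    rw [← hm2] at h1
    have h2 := abs_le.1 (abs_le_of_sq_le_sq h1 hm0)
    have h3 := p.1.2.1
    have h4 := p.1.2.2
    show ((1 - (p.1 : ℝ)) * √(GG g (p.2 : ℂ × ℝ).1) + (p.1 : ℝ) * (p.2 : ℂ × ℝ).2) ^ 2 ≤
      GG g (p.2 : ℂ × ℝ).1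
    rw [← hm, ← hm2]
    apply sq_le_sq'
    · nlinarith [h2.1, h2.2]
    · nlinarith [h2.1, h2.2]⟩

theorem pth_cont : Continuous (pth g) := by
  have h1 : Continuous fun p : unitInterval × Hb g => GG g (p.2 : ℂ × ℝ).1 :=
    (GG_cont g).comp (by fun_prop)
  refine Continuous.subtype_mk (Continuous.prodMk ?_ ?_) _
  · fun_prop
  · fun_prop

theorem top_mem {y : ℂ} (h : 0 ≤ GG g y) : ((y, √(GG g y)) : ℂ × ℝ) ∈ HbBd g := by
  show √(GG g y) ^ 2 = GG g y
  exact Real.sq_sqrt h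

theorem bot_mem {y : ℂ} (h : 0 ≤ GG g y) : ((y, -√(GG g y)) : ℂ × ℝ) ∈ HbBd g := by
  show (-√(GG g y)) ^ 2 = GG g y
  rw [neg_sq]
  exact Real.sq_sqrt h

theorem bd_sub {p : ℂ × ℝ} (h : p ∈ HbBd g) : p ∈ Hb g := le_of_eq h

/-- Logarithms on the boundary extend to the handlebody. -/
theorem extend_log (w : Hb g → Real.Angle) (hw : Continuous w) (θ : HbBd g → ℝ)
    (hθ : Continuous θ) (h : ∀ v : HbBd g, (θ v : Real.Angle) = w ⟨v, bd_sub v.2⟩) :
    ∃ Θ : Hb g → ℝ, Continuous Θ ∧ (∀ v, (Θ v : Real.Angle) = w v) ∧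
      ∀ v : HbBd g, Θ ⟨v, bd_sub v.2⟩ = θ v := by
  have hnn : ∀ v : Hb g, 0 ≤ GG g (v : ℂ × ℝ).1 := fun v => (sq_nonneg _).trans v.2
  obtain ⟨L, cL, eL, zL⟩ := exists_lift (fun p => w (pth g p)) (hw.comp pth_cont)
    (fun v => θ ⟨((v : ℂ × ℝ).1, √(GG g (v : ℂ × ℝ).1)), top_mem (hnn v)⟩)
    (by
      apply hθ.comp
      refine Continuous.subtype_mk (Continuous.prodMk (by fun_prop) ?_) _
      exact ((GG_cont g).comp (by fun_prop)).sqrt) (by
      intro v
      rw [h]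
      congr 1
      apply Subtype.ext
      simp [pth])
  have cL1 : Continuous fun v => L (1, v) := cL.comp (Continuous.prodMk continuous_const continuous_id)
  have eL1 : ∀ v, (L (1, v) : Real.Angle) = w v := by
    intro v
    rw [eL]
    congr 1
    apply Subtype.ext
    simp [pth]
  have htop : ∀ (y : ℂ) (hy : 0 ≤ GG g y), L (1, ⟨(y, √(GG g y)), bd_sub (top_mem hy)⟩) =
      θ ⟨(y, √(GG g y)), top_mem hy⟩ := by
    intro y hy
    have h1 := const_of (fun t : unitInterval => L (t, ⟨(y, √(GG g y)), bd_sub (top_mem hy)⟩) -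
      θ ⟨(y, √(GG g y)), top_mem hy⟩)
      ((cL.comp (Continuous.prodMk continuous_id continuous_const)).sub continuous_const) (by
        intro t
        rw [Real.Angle.coe_sub, eL, h, sub_eq_zero]
        congr 1
        apply Subtype.ext
        simp only [pth]
        apply Prod.ext
        · rfl
        · simp only
          ring) 0 1
    simp only [zL, sub_self] at h1
    linarith
  refine ⟨fun v => L (1, v), cL1, eL1, ?_⟩
  rintro ⟨⟨y, s⟩, hv⟩
  have hv' : s ^ 2 = GG g y := hv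
  have hy : 0 ≤ GG g y := by rw [← hv']; positivity
  have hs : s = √(GG g y) ∨ s = -√(GG g y) := by
    rw [← hv', Real.sqrt_sq_eq_abs]
    rcases abs_choice s with h1 | h1
    · left; exact h1.symm
    · right; rw [h1, neg_neg]
  rcases hs with rfl | rfl
  · exact htop y hy
  · obtain ⟨T, hT0, hT1, hT2⟩ := exists_first (mem_Pl_of hy)
    have hnn2 : ∀ t : unitInterval, 0 ≤ GG g (y + ((t : ℝ) * T : ℝ) * Complex.I) := by
      intro t
      have h1 := t.2.1
      have h2 := t.2.2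
      apply hT2
      · positivity
      · nlinarith
    have cc : Continuous fun t : unitInterval => GG g (y + ((t : ℝ) * T : ℝ) * Complex.I) :=
      (GG_cont g).comp (by fun_prop)
    have h1 := const_of (fun t : unitInterval =>
      L (1, ⟨(y + ((t : ℝ) * T : ℝ) * Complex.I, -√(GG g (y + ((t : ℝ) * T : ℝ) * Complex.I))),
        bd_sub (bot_mem (hnn2 t))⟩) -
      θ ⟨(y + ((t : ℝ) * T : ℝ) * Complex.I, -√(GG g (y + ((t : ℝ) * T : ℝ) * Complex.I))),
        bot_mem (hnn2 t)⟩) (by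
        refine Continuous.sub (cL1.comp ?_) (hθ.comp ?_)
        · refine Continuous.subtype_mk (Continuous.prodMk (by fun_prop) ?_) _
          exact cc.sqrt.neg
        · refine Continuous.subtype_mk (Continuous.prodMk (by fun_prop) ?_) _
          exact cc.sqrt.neg) (by
        intro t
        rw [Real.Angle.coe_sub, eL1, h, sub_self]) 0 1
    have h2 := htop (y + T * Complex.I) hT1.ge
    have h3 : ∀ z : ℂ, GG g z = 0 → ((z, -√(GG g z)) : ℂ × ℝ) = (z, √(GG g z)) := by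
      intro z hz
      rw [hz]
      simp
    have h4 : L (1, ⟨(y + (((1 : unitInterval) : ℝ) * T : ℝ) * Complex.I,
        -√(GG g (y + (((1 : unitInterval) : ℝ) * T : ℝ) * Complex.I))),
        bd_sub (bot_mem (hnn2 1))⟩) = θ ⟨(y + (((1 : unitInterval) : ℝ) * T : ℝ) * Complex.I,
        -√(GG g (y + (((1 : unitInterval) : ℝ) * T : ℝ) * Complex.I))), bot_mem (hnn2 1)⟩ := by
      have h5 : y + (((1 : unitInterval) : ℝ) * T : ℝ) * Complex.I = y + T * Complex.I := by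
        simp
      have h6 : ((y + (((1 : unitInterval) : ℝ) * T : ℝ) * Complex.I,
        -√(GG g (y + (((1 : unitInterval) : ℝ) * T : ℝ) * Complex.I))) : ℂ × ℝ) =
          (y + T * Complex.I, √(GG g (y + T * Complex.I))) := by
        rw [h5, h3 _ hT1]
      simp only [h6]
      exact h2
    have h7 : ((y + (((0 : unitInterval) : ℝ) * T : ℝ) * Complex.I,
        -√(GG g (y + (((0 : unitInterval) : ℝ) * T : ℝ) * Complex.I))) : ℂ × ℝ) =
          (y, -√(GG g y)) := by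
      simp
    simp only [h7] at h1
    rw [h4, sub_self] at h1
    exact sub_eq_zero.1 h1

end

end Pool.Agent.Lib.MP_84984d_gt
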