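import Pool.Agent.Lib.MP_84984d_gt.Lift

set_option autoImplicit false

/-!
The standard handlebody of genus `g`, and maps from it to the circle.
-/

namespace Pool.Agent.Lib.MP_84984d_gt

open unitInterval Topology Finset

/-- The function `((4g+1)² - |y|²) ∏_{j<g} (|y - 4j|² - 1)`. -/
noncomputable def GG (g : ℕ) (y : ℂ) : ℝ :=
  ((4 * g + 1) ^ 2 - ‖y‖ ^ 2) * ∏ j ∈ range g, (‖y - 4 * j‖ ^ 2 - 1)

/-- The standard handlebody of genus `g` in `ℝ³ = ℂ × ℝ`: the points with `s² ≤ GG g y`. -/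
def Hb (g : ℕ) : Set (ℂ × ℝ) := {p | p.2 ^ 2 ≤ GG g p.1}

/-- Its boundary. -/
def HbBd (g : ℕ) : Set (ℂ × ℝ) := {p | p.2 ^ 2 = GG g p.1}

/-- The closed disc of radius `4g+1` around `0` without `g` open discs of radius one around
`0, 4, …, 4(g-1)`. -/
def Pl (g : ℕ) : Set ℂ := {y | ‖y‖ ≤ 4 * g + 1 ∧ ∀ j < g, 1 ≤ ‖y - 4 * j‖}

theorem GG_cont (g : ℕ) : Continuous (GG g) := by
  unfold GG
  fun_prop

theorem GG_nonneg {g : ℕ} {y : ℂ} (h : y ∈ Pl g) : 0 ≤ GG g y := by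
  obtain ⟨h1, h2⟩ := h
  unfold GG
  apply mul_nonneg
  · have := norm_nonneg y
    nlinarith
  · apply prod_nonneg
    intro j hj
    have h3 := h2 j (mem_range.1 hj)
    nlinarith

theorem mem_Pl_of {g : ℕ} {y : ℂ} (h : 0 ≤ GG g y) : y ∈ Pl g := by
  have h4 : ∀ j : ℕ, ‖(4 * j : ℂ)‖ = 4 * j := by
    intro j
    rw [norm_mul, Complex.norm_natCast]
    norm_num
  have h1 : ‖y‖ ≤ 4 * g + 1 := by
    by_contra h1
    push Not at h1
    have h2 : ((4 * g + 1) ^ 2 - ‖y‖ ^ 2 : ℝ) < 0 := by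
      have h5 : (0 : ℝ) ≤ 4 * g + 1 := by positivity
      nlinarith
    have h3 : 0 < ∏ j ∈ range g, (‖y - 4 * j‖ ^ 2 - 1) := by
      apply prod_pos
      intro j hj
      have hj' : (j : ℝ) + 1 ≤ g := by exact_mod_cast mem_range.1 hj
      have h6 : ‖y‖ - ‖(4 * j : ℂ)‖ ≤ ‖y - 4 * j‖ := norm_sub_norm_le _ _
      rw [h4] at h6
      have h7 : (1 : ℝ) < ‖y - 4 * j‖ := by linarith
      nlinarith
    have := mul_neg_of_neg_of_pos h2 h3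
    unfold GG at h
    linarith
  refine ⟨h1, ?_⟩
  intro j hj
  by_contra h2
  push Not at h2
  have hj' : (j : ℝ) + 1 ≤ g := by exact_mod_cast hj
  have h3 : ‖y‖ < 4 * g + 1 := by
    have h6 : ‖y‖ - ‖(4 * j : ℂ)‖ ≤ ‖y - 4 * j‖ := norm_sub_norm_le _ _
    rw [h4] at h6
    linarith
  have h5 : 0 < ((4 * g + 1) ^ 2 - ‖y‖ ^ 2 : ℝ) := by
    have := norm_nonneg y
    nlinarith
  have h6 : ‖y - 4 * j‖ ^ 2 - 1 < 0 := by
    have := norm_nonneg (y - 4 * j)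
    nlinarith
  have h7 : 0 < ∏ i ∈ (range g).erase j, (‖y - 4 * i‖ ^ 2 - 1) := by
    apply prod_pos
    intro i hi
    have hij : i ≠ j := ne_of_mem_erase hi
    have h8 : ‖(4 * j - 4 * i : ℂ)‖ - ‖(4 * j - y : ℂ)‖ ≤ ‖(4 * j - 4 * i : ℂ) - (4 * j - y)‖ :=
      norm_sub_norm_le _ _
    have h9 : (4 * j - 4 * i : ℂ) - (4 * j - y) = y - 4 * i := by ring
    have h10 : ‖(4 * j - y : ℂ)‖ = ‖y - 4 * j‖ := norm_sub_rev _ _
    have h11 : (4 : ℝ) ≤ ‖(4 * j - 4 * i : ℂ)‖ := by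
      have h12 : (4 * j - 4 * i : ℂ) = ((4 * ((j : ℤ) - i) : ℤ) : ℂ) := by
        push_cast
        ring
      rw [h12, Complex.norm_intCast]
      have h13 : (1 : ℤ) ≤ |(j : ℤ) - i| := Int.one_le_abs (by omega)
      rw [← Int.cast_abs, abs_mul]
      have h14 : (4 : ℤ) ≤ |4| * |(j : ℤ) - i| := by
        rw [abs_of_pos (by norm_num : (0 : ℤ) < 4)]
        linarith
      exact_mod_cast h14
    rw [h9, h10] at h8
    have h15 : (1 : ℝ) < ‖y - 4 * i‖ := by linarith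
    nlinarith
  have h8 : GG g y < 0 := by
    unfold GG
    rw [← mul_prod_erase (range g) (fun j : ℕ => ‖y - 4 * j‖ ^ 2 - 1) (mem_range.2 hj)]
    exact mul_neg_of_pos_of_neg h5 (mul_neg_of_neg_of_pos h6 h7)
  linarith

theorem mem_Pl_iff {g : ℕ} {y : ℂ} : y ∈ Pl g ↔ 0 ≤ GG g y := ⟨GG_nonneg, mem_Pl_of⟩

theorem Hb_fst {g : ℕ} {p : ℂ × ℝ} (h : p ∈ Hb g) : p.1 ∈ Pl g :=
  mem_Pl_of ((sq_nonneg _).trans h)

/-! ### coordinates -/

theorem norm_sq (y : ℂ) : ‖y‖ ^ 2 = y.re ^ 2 + y.im ^ 2 := by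
  rw [Complex.sq_norm, Complex.normSq_apply]
  ring

theorem mem_Pl_sq {g : ℕ} {y : ℂ} : y ∈ Pl g ↔ y.re ^ 2 + y.im ^ 2 ≤ (4 * g + 1) ^ 2 ∧
    ∀ j < g, 1 ≤ (y.re - 4 * j) ^ 2 + y.im ^ 2 := by
  have h1 : ∀ j : ℕ, ‖y - 4 * j‖ ^ 2 = (y.re - 4 * j) ^ 2 + y.im ^ 2 := by
    intro j
    rw [norm_sq]
    simp
  constructor
  · rintro ⟨h2, h3⟩
    refine ⟨?_, fun j hj => ?_⟩
    · rw [← norm_sq]
      exact pow_le_pow_left₀ (norm_nonneg _) h2 2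
    · rw [← h1]
      exact one_le_pow₀ (h3 j hj)
  · rintro ⟨h2, h3⟩
    refine ⟨?_, fun j hj => ?_⟩
    · rw [← norm_sq] at h2
      exact le_of_sq_le_sq h2 (by positivity)
    · have h4 := h3 j hj
      rw [← h1] at h4
      by_contra h5
      push Not at h5
      have := norm_nonneg (y - 4 * j)
      nlinarith

theorem GG_eq {g : ℕ} {y y' : ℂ} (h1 : y.re = y'.re) (h2 : y.im ^ 2 = y'.im ^ 2) :
    GG g y = GG g y' := by
  unfold GG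
  have h3 : ‖y‖ ^ 2 = ‖y'‖ ^ 2 := by rw [norm_sq, norm_sq, h1, h2]
  rw [h3]
  congr 1
  apply prod_congr rfl
  intro j _
  rw [norm_sq, norm_sq]
  simp [h1, h2]

end Pool.Agent.Lib.MP_84984d_gt
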