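import Mathlib

set_option autoImplicit false

/-!
Lifts of maps to the circle `Real.Angle` to maps to `ℝ`.
-/

namespace Pool.Agent.Lib.MP_84984d_gt

open unitInterval Topology

theorem isCov : IsCoveringMap ((↑) : ℝ → Real.Angle) :=
  AddCircle.isCoveringMap_coe (2 * Real.pi)

/-- Homotopy lifting. -/
theorem exists_lift {A : Type*} [TopologicalSpace A] (H : unitInterval × A → Real.Angle)
    (hH : Continuous H) (l : A → ℝ) (hl : Continuous l)
    (h0 : ∀ a, (l a : Real.Angle) = H (0, a)) :
    ∃ L : unitInterval × A → ℝ, Continuous L ∧ (∀ p, (L p : Real.Angle) = H p) ∧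
      ∀ a, L (0, a) = l a := by
  refine ⟨isCov.liftHomotopy ⟨H, hH⟩ ⟨l, hl⟩ fun a => (h0 a).symm, ContinuousMap.continuous _,
    fun p => ?_, fun a => ?_⟩
  · exact congrFun (isCov.liftHomotopy_lifts ⟨H, hH⟩ ⟨l, hl⟩ fun a => (h0 a).symm) p
  · exact isCov.liftHomotopy_zero ⟨H, hH⟩ ⟨l, hl⟩ (fun a => (h0 a).symm) a

/-- A continuous function with values in `2πℤ` on a preconnected space is constant. -/
theorem const_of {S : Type*} [TopologicalSpace S] [PreconnectedSpace S] (f : S → ℝ)
    (hf : Continuous f) (h : ∀ x, ((f x : ℝ) : Real.Angle) = 0) (x y : S) : f x = f y := by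
  have h1 : ∀ x, ∃ n : ℤ, (n : ℝ) = f x / (2 * Real.pi) := by
    intro x
    obtain ⟨n, hn⟩ := Real.Angle.coe_eq_zero_iff.1 (h x)
    refine ⟨n, ?_⟩
    rw [← hn, zsmul_eq_mul]
    field_simp
  choose n hn using h1
  have h2 : Continuous n := by
    rw [Int.isClosedEmbedding_coe_real.isInducing.continuous_iff]
    have : (fun k : ℤ => (k : ℝ)) ∘ n = fun x => f x / (2 * Real.pi) := funext hn
    rw [this]
    exact hf.div_const _
  have h3 : n x = n y := PreconnectedSpace.constant inferInstance h2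
  have h4 := hn x
  rw [h3, hn y] at h4
  have h5 : (2 * Real.pi) ≠ 0 := by positivity
  field_simp at h4
  exact h4.symm

end Pool.Agent.Lib.MP_84984d_gt
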