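import Pool.Agent.Lib.MP_84984d_gt.Handle

set_option autoImplicit false

/-!
Logarithms of maps from the handlebody to the circle.
-/

namespace Pool.Agent.Lib.MP_84984d_gt

open unitInterval Topology Finset

section

variable {g : ℕ} {ε : ℝ}

theorem arc_mem (hε : ε ^ 2 = 1) {a : ℝ} (ha : a ^ 2 ≤ (4 * g + 1) ^ 2) :
    (⟨a, ε * √((4 * g + 1) ^ 2 - a ^ 2)⟩ : ℂ) ∈ Pl g := by
  rw [mem_Pl_sq]
  have h1 : (ε * √((4 * g + 1) ^ 2 - a ^ 2)) ^ 2 = (4 * g + 1) ^ 2 - a ^ 2 := by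
    rw [mul_pow, hε, one_mul, Real.sq_sqrt (by linarith)]
  have h0 : a ≤ 4 * g + 1 := le_of_sq_le_sq ha (by positivity)
  simp only [h1]
  refine ⟨by linarith, fun j hj => ?_⟩
  have hj' : (j : ℝ) + 1 ≤ g := by exact_mod_cast hj
  have hj0 : (0 : ℝ) ≤ j := by positivity
  nlinarith [mul_nonneg hj0 (sub_nonneg.2 h0)]

theorem vert_mem (hε : ε ^ 2 = 1) {a b t : ℝ} (h : (⟨a, b⟩ : ℂ) ∈ Pl g) (h0 : 0 ≤ t)
    (h1 : t ≤ 1) :
    (⟨a, ε * ((1 - t) * √((4 * g + 1) ^ 2 - a ^ 2) + t * |b|)⟩ : ℂ) ∈ Pl g := by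
  rw [mem_Pl_sq] at h ⊢
  obtain ⟨h2, h3⟩ := h
  simp only at h2 h3
  obtain ⟨m, hm⟩ : ∃ m, m = √((4 * g + 1) ^ 2 - a ^ 2) := ⟨_, rfl⟩
  have hm2 : m ^ 2 = (4 * g + 1) ^ 2 - a ^ 2 := by
    rw [hm, Real.sq_sqrt (by nlinarith [sq_nonneg b])]
  have hm0 : 0 ≤ m := by rw [hm]; positivity
  have hb : |b| ≤ m := by
    apply abs_le_of_sq_le_sq _ hm0
    linarith
  rw [← hm]
  obtain ⟨c, hc⟩ : ∃ c, c = (1 - t) * m + t * |b| := ⟨_, rfl⟩
  rw [← hc]
  have hc1 : |b| ≤ c := by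
    rw [hc]
    nlinarith
  have hc2 : c ≤ m := by
    rw [hc]
    nlinarith
  have hb0 := abs_nonneg b
  have h4 : (ε * c) ^ 2 = c ^ 2 := by rw [mul_pow, hε, one_mul]
  have h5 : b ^ 2 ≤ c ^ 2 := by
    rw [← sq_abs b]
    nlinarith
  simp only [h4]
  refine ⟨by nlinarith, fun j hj => ?_⟩
  have := h3 j hj
  linarith

theorem mem_Hb_zero {y : ℂ} (h : y ∈ Pl g) : ((y, 0) : ℂ × ℝ) ∈ Hb g := by
  have := GG_nonneg h
  simpa [Hb] using this

theorem re_sq_le {y : ℂ} (h : y ∈ Pl g) : y.re ^ 2 ≤ (4 * g + 1) ^ 2 := by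
  rw [mem_Pl_sq] at h
  nlinarith [h.1, sq_nonneg y.im]

/-- the first part of the path -/
noncomputable def st1 (g : ℕ) (ε : ℝ) (hε : ε ^ 2 = 1) (p : unitInterval × Hb g) : Hb g :=
  ⟨(⟨-(4 * g + 1) + (p.1 : ℝ) * ((p.2 : ℂ × ℝ).1.re + (4 * g + 1)),
    ε * √((4 * g + 1) ^ 2 - (-(4 * g + 1) + (p.1 : ℝ) * ((p.2 : ℂ × ℝ).1.re +
      (4 * g + 1))) ^ 2)⟩, 0), by
    apply mem_Hb_zero
    apply arc_mem hε
    have h1 := re_sq_le (Hb_fst p.2.2)
    have h0 : (0 : ℝ) ≤ 4 * g + 1 := by positivity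
    have h2 := abs_le_of_sq_le_sq h1 h0
    have h3 := abs_le.1 h2
    have h4 := p.1.2.1
    have h5 := p.1.2.2
    apply sq_le_sq'
    · nlinarith [h3.1, h3.2]
    · nlinarith [h3.1, h3.2]⟩

/-- the second part of the path -/
noncomputable def st2 (g : ℕ) (ε : ℝ) (hε : ε ^ 2 = 1) (p : unitInterval × Hb g) : Hb g :=
  ⟨(⟨(p.2 : ℂ × ℝ).1.re, ε * ((1 - (p.1 : ℝ)) * √((4 * g + 1) ^ 2 - (p.2 : ℂ × ℝ).1.re ^ 2) +
    (p.1 : ℝ) * |(p.2 : ℂ × ℝ).1.im|)⟩, 0), by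
    apply mem_Hb_zero
    exact vert_mem hε (Hb_fst p.2.2) p.1.2.1 p.1.2.2⟩

/-- the third part of the path -/
noncomputable def st3 (g : ℕ) (ε : ℝ) (hε : ε ^ 2 = 1) (p : unitInterval × Hb g) : Hb g :=
  ⟨(⟨(p.2 : ℂ × ℝ).1.re, ε * |(p.2 : ℂ × ℝ).1.im|⟩, (p.1 : ℝ) * (p.2 : ℂ × ℝ).2), by
    have h1 : (p.2 : ℂ × ℝ).2 ^ 2 ≤ GG g (p.2 : ℂ × ℝ).1 := p.2.2
    have h2 : GG g (⟨(p.2 : ℂ × ℝ).1.re, ε * |(p.2 : ℂ × ℝ).1.im|⟩ : ℂ) =
        GG g (p.2 : ℂ × ℝ).1 := by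
      refine GG_eq rfl ?_
      show (ε * |(p.2 : ℂ × ℝ).1.im|) ^ 2 = (p.2 : ℂ × ℝ).1.im ^ 2
      rw [mul_pow, hε, one_mul, sq_abs]
    show ((p.1 : ℝ) * (p.2 : ℂ × ℝ).2) ^ 2 ≤ GG g _
    rw [h2, mul_pow]
    have h3 : (p.1 : ℝ) ^ 2 ≤ 1 := pow_le_one₀ p.1.2.1 p.1.2.2
    nlinarith [sq_nonneg (p.2 : ℂ × ℝ).2]⟩

theorem mk_cont {X : Type*} [TopologicalSpace X] {f h : X → ℝ} (hf : Continuous f)
    (hh : Continuous h) : Continuous fun x => (⟨f x, h x⟩ : ℂ) := by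
  have : (fun x => (⟨f x, h x⟩ : ℂ)) = fun x => ((f x : ℂ) + (h x : ℂ) * Complex.I) := by
    funext x
    apply Complex.ext <;> simp
  rw [this]
  fun_prop

theorem re_cont : Continuous fun p : unitInterval × Hb g => (p.2 : ℂ × ℝ).1.re := by
  fun_prop

theorem im_cont : Continuous fun p : unitInterval × Hb g => (p.2 : ℂ × ℝ).1.im := by
  fun_prop

theorem st1_cont (hε : ε ^ 2 = 1) : Continuous (st1 g ε hε) := by
  have := re_cont (g := g)
  refine Continuous.subtype_mk (Continuous.prodMk (mk_cont ?_ ?_) continuous_const) _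
  · fun_prop
  · fun_prop

theorem st2_cont (hε : ε ^ 2 = 1) : Continuous (st2 g ε hε) := by
  have := re_cont (g := g)
  have := im_cont (g := g)
  refine Continuous.subtype_mk (Continuous.prodMk (mk_cont ?_ ?_) continuous_const) _
  · fun_prop
  · fun_prop

theorem st3_cont (hε : ε ^ 2 = 1) : Continuous (st3 g ε hε) := by
  have := re_cont (g := g)
  have := im_cont (g := g)
  refine Continuous.subtype_mk (Continuous.prodMk (mk_cont ?_ ?_) ?_) _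
  · fun_prop
  · fun_prop
  · fun_prop

/-- logarithms of maps to the circle, composed with the reflection -/
theorem exists_log (hε : ε ^ 2 = 1) (u : Hb g → Real.Angle) (hu : Continuous u) :
    ∃ L : Hb g → ℝ, Continuous L ∧ ∀ v, (L v : Real.Angle) = u (st3 g ε hε (1, v)) := by
  have hbase : (⟨-(4 * g + 1), ε * √((4 * g + 1) ^ 2 - (-(4 * g + 1)) ^ 2)⟩ : ℂ) ∈ Pl g :=
    arc_mem hε (by rw [neg_sq])
  obtain ⟨L1, c1, e1, z1⟩ := exists_lift (fun p => u (st1 g ε hε p)) (hu.comp (st1_cont hε))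
    (fun _ => (u ⟨_, mem_Hb_zero hbase⟩).toReal) continuous_const (by
      intro v
      rw [Real.Angle.coe_toReal]
      congr 1
      apply Subtype.ext
      simp [st1])
  obtain ⟨L2, c2, e2, z2⟩ := exists_lift (fun p => u (st2 g ε hε p)) (hu.comp (st2_cont hε))
    (fun v => L1 (1, v)) (c1.comp (Continuous.prodMk continuous_const continuous_id)) (by
      intro v
      rw [e1]
      congr 1
      apply Subtype.ext
      have h1 : -(4 * (g : ℝ) + 1) + 1 * ((v : ℂ × ℝ).1.re + (4 * g + 1)) =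
          (v : ℂ × ℝ).1.re := by ring
      simp only [st1, st2, Set.Icc.coe_one, Set.Icc.coe_zero, h1]
      simp)
  obtain ⟨L3, c3, e3, z3⟩ := exists_lift (fun p => u (st3 g ε hε p)) (hu.comp (st3_cont hε))
    (fun v => L2 (1, v)) (c2.comp (Continuous.prodMk continuous_const continuous_id)) (by
      intro v
      rw [e2]
      congr 1
      apply Subtype.ext
      simp [st2, st3])
  exact ⟨fun v => L3 (1, v), c3.comp (Continuous.prodMk continuous_const continuous_id),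
    fun v => e3 (1, v)⟩

theorem st3_one (hε : ε ^ 2 = 1) (v : Hb g) (h : 0 ≤ ε * (v : ℂ × ℝ).1.im) :
    st3 g ε hε (1, v) = v := by
  apply Subtype.ext
  have h1 : ε * |(v : ℂ × ℝ).1.im| = (v : ℂ × ℝ).1.im := by
    have h2 : ε = 1 ∨ ε = -1 := by
      have h3 : (ε - 1) * (ε + 1) = 0 := by linear_combination hε
      rcases mul_eq_zero.1 h3 with h4 | h4
      · left; linarith
      · right; linarith
    rcases h2 with rfl | rfl
    · rw [one_mul] at h ⊢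
      exact abs_of_nonneg h
    · have h5 : (v : ℂ × ℝ).1.im ≤ 0 := by linarith
      rw [abs_of_nonpos h5]
      ring
  apply Prod.ext
  · apply Complex.ext
    · simp [st3]
    · simpa [st3] using h1
  · simp [st3]

end

end Pool.Agent.Lib.MP_84984d_gt
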