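import Pool.Agent.Lib.MP_84984d_gt.Torus

set_option autoImplicit false

/-!
Smooth mapping tori.
-/

namespace Pool.Agent.Lib.MP_84984d_gt

open unitInterval Topology Finset

/-- `M` is a closed connected smooth hypersurface in `ℂ × ℂ`. -/
def IsClosedHyp (M : Set (ℂ × ℂ)) : Prop :=
  IsCompact M ∧ IsConnected M ∧ ∃ F : ℂ × ℂ → ℝ, ContDiff ℝ ⊤ F ∧ M = {p | F p = 0} ∧
    ∀ p ∈ M, fderiv ℝ F p ≠ 0

/-- `X` is a smooth model of the mapping torus of `φ : M → M`: the quotient of `M × ℝ` by the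
group of transformations generated by `(p, t) ↦ (φ p, t - 1)`. -/
def IsTorus (M : Set (ℂ × ℂ)) (φ : ℂ × ℂ → ℂ × ℂ) (X : Set ((ℂ × ℂ) × ℂ)) : Prop :=
  ∃ (U : Set ((ℂ × ℂ) × ℝ)) (Q : (ℂ × ℂ) × ℝ → (ℂ × ℂ) × ℂ), IsOpen U ∧ M ×ˢ Set.univ ⊆ U ∧
    ContDiffOn ℝ ⊤ Q U ∧ (∀ p ∈ U, Function.Injective (fderiv ℝ Q p)) ∧
    Q '' (M ×ˢ Set.univ) = X ∧
    ∀ p ∈ M, ∀ p' ∈ M, ∀ t t' : ℝ, Q (p, t) = Q (p', t') ↔
      ∃ n : ℕ, (p' = φ^[n] p ∧ t' = t - n) ∨ (p = φ^[n] p' ∧ t = t' - n)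

theorem MM_hyp {r : ℕ} (hr : r ≠ 0) : IsClosedHyp (MM r) :=
  ⟨MM_compact hr, MM_connected hr, FF r, FF_smooth r, by
    ext p
    exact mem_MM_iff, fun _ hp => FF_fderiv hr hp⟩

theorem ph_iter (r n : ℕ) (p : ℂ × ℂ) : (ph r)^[n] p = (zt r ^ n * p.1, p.2) := by
  induction n with
  | zero => simp
  | succ n ih =>
    rw [Function.iterate_succ_apply', ih]
    unfold ph
    simp only
    rw [pow_succ']
    ring_nf

theorem MM_torus {r : ℕ} (hr : r ≠ 0) :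
    IsTorus (MM r) (ph r) (MM 1 ×ˢ Metric.sphere (0 : ℂ) 1) := by
  have hz : zt r ≠ 0 := (zt_prim hr).ne_zero hr
  refine ⟨{p | p.1.1 ≠ 0}, QQ r, isOpen_ne_fun (by fun_prop) continuous_const, ?_, QQ_smooth r,
    fun p hp => QQ_inj hr hp, ?_, ?_⟩
  · rintro ⟨p, t⟩ ⟨hp, _⟩
    exact fst_ne hr hp
  · ext q
    constructor
    · rintro ⟨⟨p, t⟩, ⟨hp, _⟩, rfl⟩
      exact QQ_mem hr hp t
    · intro hq
      obtain ⟨p, hp, t, h⟩ := QQ_surj hr hq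
      exact ⟨(p, t), ⟨hp, trivial⟩, h⟩
  · intro p hp p' hp' t t'
    rw [QQ_eq hr (fst_ne hr hp) (fst_ne hr hp')]
    constructor
    · rintro ⟨m, h1, h2⟩
      obtain ⟨n, rfl | rfl⟩ := m.eq_nat_or_neg
      · refine ⟨n, Or.inl ⟨?_, by simpa using h2⟩⟩
        rw [ph_iter, h1, zpow_natCast]
      · refine ⟨n, Or.inr ⟨?_, ?_⟩⟩
        · rw [ph_iter, h1]
          apply Prod.ext
          · simp [hz]
          · rfl
        · rw [h2]
          push_cast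
          ring
    · rintro ⟨n, ⟨h1, h2⟩ | ⟨h1, h2⟩⟩
      · refine ⟨n, ?_, by simpa using h2⟩
        rw [h1, ph_iter, zpow_natCast]
      · refine ⟨-n, ?_, ?_⟩
        · rw [h1, ph_iter]
          apply Prod.ext
          · simp [hz]
          · rfl
        · rw [h2]
          push_cast
          ring

theorem ph_one : ph 1 = id := by
  funext p
  unfold ph zt
  simp [Complex.exp_two_pi_mul_I]

end Pool.Agent.Lib.MP_84984d_gt
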