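import Pool.Agent.Lib.MP_84984d_gt.Logs

set_option autoImplicit false

/-!
More than `g` maps from a handlebody of genus `g` to the circle are dependent.
-/

namespace Pool.Agent.Lib.MP_84984d_gt

open unitInterval Topology Finset

section

variable {g : ℕ}

/-- left ends of the components of the real part -/
noncomputable def lft (g i : ℕ) : ℝ := if i = 0 then -(4 * g + 1) else 4 * i - 3

theorem real_mem_iff {x : ℝ} : (x : ℂ) ∈ Pl g ↔ x ^ 2 ≤ (4 * g + 1) ^ 2 ∧
    ∀ j < g, 1 ≤ (x - 4 * j) ^ 2 := by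
  rw [mem_Pl_sq]
  simp

theorem lft_mem {i : ℕ} (hi : i ≤ g) : ((lft g i : ℝ) : ℂ) ∈ Pl g := by
  rw [real_mem_iff]
  have hi' : (i : ℝ) ≤ g := by exact_mod_cast hi
  unfold lft
  split_ifs with h
  · refine ⟨by rw [neg_sq], fun j hj => ?_⟩
    have h1 : (0 : ℝ) ≤ j := by positivity
    have h2 : (0 : ℝ) ≤ g := by positivity
    nlinarith
  · have h1 : (1 : ℝ) ≤ i := by exact_mod_cast Nat.one_le_iff_ne_zero.2 h
    refine ⟨by nlinarith, fun j hj => ?_⟩
    rcases lt_or_ge j i with h2 | h2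
    · have h3 : (j : ℝ) + 1 ≤ i := by exact_mod_cast h2
      nlinarith
    · have h3 : (i : ℝ) ≤ j := by exact_mod_cast h2
      nlinarith

theorem exists_comp {x : ℝ} (h : (x : ℂ) ∈ Pl g) : ∃ i ≤ g, lft g i ≤ x ∧
    ∀ t, lft g i ≤ t → t ≤ x → (t : ℂ) ∈ Pl g := by
  classical
  rw [real_mem_iff] at h
  obtain ⟨h1, h2⟩ := h
  have hR : (0 : ℝ) ≤ 4 * g + 1 := by positivity
  have hx := abs_le.1 (abs_le_of_sq_le_sq h1 hR)
  have hex : ∃ i, i = g ∨ x < 4 * (i : ℝ) := ⟨g, Or.inl rfl⟩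
  obtain ⟨i, hi⟩ : ∃ i, i = Nat.find hex := ⟨_, rfl⟩
  have hig : i ≤ g := by
    rw [hi]
    exact Nat.find_min' hex (Or.inl rfl)
  have hP : i = g ∨ x < 4 * (i : ℝ) := by
    rw [hi]
    exact Nat.find_spec hex
  have hlow : ∀ j < i, 4 * (j : ℝ) + 1 ≤ x := by
    intro j hj
    have h3 := Nat.find_min hex (m := j) (by rw [← hi]; exact hj)
    push Not at h3
    have h4 := h2 j (by omega)
    by_contra h5
    push Not at h5
    nlinarith [h3.2]
  have hup : ∀ j, i ≤ j → j < g → x ≤ 4 * (j : ℝ) - 1 := by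
    intro j hj hjg
    have h3 : x < 4 * (i : ℝ) := hP.resolve_left (by omega)
    have h4 : (i : ℝ) ≤ j := by exact_mod_cast hj
    have h5 := h2 j hjg
    by_contra h6
    push Not at h6
    nlinarith
  have hlft : lft g i ≤ x := by
    unfold lft
    split_ifs with h3
    · exact hx.1
    · obtain ⟨k, rfl⟩ := Nat.exists_eq_succ_of_ne_zero h3
      have := hlow k (Nat.lt_succ_self k)
      push_cast
      linarith
  have hlft2 : -(4 * (g : ℝ) + 1) ≤ lft g i := by
    unfold lft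
    split_ifs with h3
    · exact le_rfl
    · have : (1 : ℝ) ≤ i := by exact_mod_cast Nat.one_le_iff_ne_zero.2 h3
      linarith
  refine ⟨i, hig, hlft, fun t ht1 ht2 => ?_⟩
  rw [real_mem_iff]
  refine ⟨sq_le_sq' (by linarith) (by linarith), fun j hj => ?_⟩
  rcases lt_or_ge j i with h3 | h3
  · have h4 : lft g i = 4 * i - 3 := by
      unfold lft
      rw [if_neg (by omega)]
    have h5 : (j : ℝ) + 1 ≤ i := by exact_mod_cast h3
    nlinarith
  · have h4 := hup j h3 hj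
    nlinarith

/-- The difference of the two logarithms is constant along paths in the real part. -/
theorem d_const {u : Hb g → Real.Angle} {Lp Lm : Hb g → ℝ} (cp : Continuous Lp)
    (cm : Continuous Lm) (hp : ∀ v : Hb g, 0 ≤ (v : ℂ × ℝ).1.im → (Lp v : Real.Angle) = u v)
    (hm : ∀ v : Hb g, (v : ℂ × ℝ).1.im ≤ 0 → (Lm v : Real.Angle) = u v) {c : unitInterval → Hb g}
    (hc : Continuous c) (h0 : ∀ t, (c t : ℂ × ℝ).1.im = 0) :
    Lp (c 0) - Lm (c 0) = Lp (c 1) - Lm (c 1) := by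
  refine const_of (fun t => Lp (c t) - Lm (c t)) ((cp.comp hc).sub (cm.comp hc)) ?_ 0 1
  intro t
  rw [Real.Angle.coe_sub, hp _ (h0 t).ge, hm _ (h0 t).le, sub_self]

/-- The base points. -/
noncomputable def base (g : ℕ) (i : Fin (g + 1)) : Hb g :=
  ⟨((lft g i : ℝ), 0), mem_Hb_zero (lft_mem (Nat.lt_succ_iff.1 i.isLt))⟩

theorem d_base {u : Hb g → Real.Angle} {Lp Lm : Hb g → ℝ} (cp : Continuous Lp)
    (cm : Continuous Lm) (hp : ∀ v : Hb g, 0 ≤ (v : ℂ × ℝ).1.im → (Lp v : Real.Angle) = u v)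
    (hm : ∀ v : Hb g, (v : ℂ × ℝ).1.im ≤ 0 → (Lm v : Real.Angle) = u v) {v : Hb g}
    (hv : (v : ℂ × ℝ).1.im = 0) {i : ℕ} (hi : i < g + 1)
    (h1 : lft g i ≤ (v : ℂ × ℝ).1.re)
    (h2 : ∀ t, lft g i ≤ t → t ≤ (v : ℂ × ℝ).1.re → (t : ℂ) ∈ Pl g) :
    Lp v - Lm v = Lp (base g ⟨i, hi⟩) - Lm (base g ⟨i, hi⟩) := by
  obtain ⟨⟨y, s⟩, hys⟩ := v
  simp only at hv h1 h2
  have hy : y = (y.re : ℂ) := by
    apply Complex.ext <;> simp [hv]
  have hmem : ∀ t : unitInterval, ((y, (1 - (t : ℝ)) * s) : ℂ × ℝ) ∈ Hb g := by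
    intro t
    have h3 : s ^ 2 ≤ GG g y := hys
    show ((1 - (t : ℝ)) * s) ^ 2 ≤ GG g y
    have h4 := t.2.1
    have h5 := t.2.2
    have h6 : (1 - (t : ℝ)) ^ 2 ≤ 1 := pow_le_one₀ (by linarith) (by linarith)
    rw [mul_pow]
    nlinarith [sq_nonneg s]
  have hmem2 : ∀ t : unitInterval,
      (((((1 - (t : ℝ)) * y.re + (t : ℝ) * lft g i : ℝ) : ℂ), 0) : ℂ × ℝ) ∈ Hb g := by
    intro t
    apply mem_Hb_zero
    have h4 := t.2.1
    have h5 := t.2.2
    apply h2
    · nlinarith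
    · nlinarith
  have e1 := d_const cp cm hp hm (c := fun t => ⟨(y, (1 - (t : ℝ)) * s), hmem t⟩)
    (by
      refine Continuous.subtype_mk ?_ _
      fun_prop) (fun t => hv)
  have e2 := d_const cp cm hp hm (c := fun t => ⟨_, hmem2 t⟩)
    (by
      refine Continuous.subtype_mk ?_ _
      fun_prop) (fun t => by simp)
  have a1 : (⟨(y, (1 - ((0 : unitInterval) : ℝ)) * s), hmem 0⟩ : Hb g) = ⟨(y, s), hys⟩ := by
    apply Subtype.ext
    simp
  have a2 : (⟨(y, (1 - ((1 : unitInterval) : ℝ)) * s), hmem 1⟩ : Hb g) = ⟨_, hmem2 0⟩ := by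
    apply Subtype.ext
    apply Prod.ext
    · simpa using hy
    · simp
  have a3 : (⟨_, hmem2 1⟩ : Hb g) = base g ⟨i, hi⟩ := by
    apply Subtype.ext
    simp [base]
  rw [a1, a2] at e1
  rw [a3] at e2
  exact e1.trans e2

/-- More than `g` maps to the circle are dependent. -/
theorem exists_rel {m : ℕ} (hm : g < m) (u : Fin m → Hb g → Real.Angle)
    (hu : ∀ j, Continuous (u j)) : ∃ n : Fin m → ℤ, n ≠ 0 ∧ ∃ θ : Hb g → ℝ, Continuous θ ∧
      ∀ v, (θ v : Real.Angle) = ∑ j, n j • u j v := by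
  choose Lp cp hp using fun j => exists_log (ε := 1) (by norm_num) (u j) (hu j)
  choose Lm cm hm' using fun j => exists_log (ε := -1) (by norm_num) (u j) (hu j)
  have hp' : ∀ j, ∀ v : Hb g, 0 ≤ (v : ℂ × ℝ).1.im → (Lp j v : Real.Angle) = u j v := by
    intro j v hv
    rw [hp, st3_one]
    linarith
  have hm'' : ∀ j, ∀ v : Hb g, (v : ℂ × ℝ).1.im ≤ 0 → (Lm j v : Real.Angle) = u j v := by
    intro j v hv
    rw [hm', st3_one]
    linarith
  have hbase : ∀ j i, ∃ k : ℤ, Lp j (base g i) - Lm j (base g i) = k * (2 * Real.pi) := by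
    intro j i
    have h1 : ((Lp j (base g i) - Lm j (base g i) : ℝ) : Real.Angle) = 0 := by
      rw [Real.Angle.coe_sub, hp' j _ (by simp [base]), hm'' j _ (by simp [base]), sub_self]
    obtain ⟨k, hk⟩ := Real.Angle.coe_eq_zero_iff.1 h1
    exact ⟨k, by rw [← hk, zsmul_eq_mul]⟩
  choose k hk using hbase
  let T : (Fin m → ℤ) →ₗ[ℤ] (Fin g → ℤ) :=
    { toFun := fun n i => ∑ j, n j * (k j i.succ - k j 0)
      map_add' := by
        intro a b
        funext i
        simp [add_mul, sum_add_distrib]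
      map_smul' := by
        intro a b
        funext i
        simp [mul_assoc, mul_sum] }
  have hnot : ¬ Function.Injective T := by
    intro h
    have h1 : Fintype.card (Fin m) ≤ Fintype.card (Fin g) := _root_.card_le_of_injective ℤ T h
    rw [Fintype.card_fin, Fintype.card_fin] at h1
    omega
  obtain ⟨n, hn, hn0⟩ : ∃ n, T n = 0 ∧ n ≠ 0 := by
    by_contra hcon
    push Not at hcon
    exact hnot ((injective_iff_map_eq_zero T).2 hcon)
  refine ⟨n, hn0, ?_⟩
  obtain ⟨c, hc⟩ : ∃ c : ℤ, c = ∑ j, n j * k j 0 := ⟨_, rfl⟩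
  have hall : ∀ i : Fin (g + 1), ∑ j, n j * k j i = c := by
    intro i
    refine Fin.cases hc.symm (fun i => ?_) i
    have h1 := congrFun hn i
    have h2 : ∑ j, n j * (k j i.succ - k j 0) = 0 := h1
    simp only [mul_sub, sum_sub_distrib] at h2
    rw [hc]
    linarith
  have hreal : ∀ v : Hb g, (v : ℂ × ℝ).1.im = 0 →
      ∑ j, n j • Lp j v = ∑ j, n j • Lm j v + c * (2 * Real.pi) := by
    intro v hv
    have hv' : ((v : ℂ × ℝ).1.re : ℂ) ∈ Pl g := by
      have h1 := Hb_fst v.2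
      have h2 : (v : ℂ × ℝ).1 = ((v : ℂ × ℝ).1.re : ℂ) := by
        apply Complex.ext <;> simp [hv]
      rwa [h2] at h1
    obtain ⟨i, hi, h3, h4⟩ := exists_comp hv'
    have h5 : ∀ j, Lp j v - Lm j v = k j ⟨i, Nat.lt_succ_iff.2 hi⟩ * (2 * Real.pi) := by
      intro j
      rw [d_base (cp j) (cm j) (hp' j) (hm'' j) hv (Nat.lt_succ_iff.2 hi) h3 h4, hk]
    have h6 := hall ⟨i, Nat.lt_succ_iff.2 hi⟩
    rw [← sub_eq_iff_eq_add', ← sum_sub_distrib]
    have h7 : ∀ j ∈ (univ : Finset (Fin m)), n j • Lp j v - n j • Lm j v =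
        ((n j * k j ⟨i, Nat.lt_succ_iff.2 hi⟩ : ℤ) : ℝ) * (2 * Real.pi) := by
      intro j _
      rw [← smul_sub, h5, zsmul_eq_mul]
      push_cast
      ring
    rw [sum_congr rfl h7, ← sum_mul, ← Int.cast_sum, h6]
  refine ⟨fun v => if 0 ≤ (v : ℂ × ℝ).1.im then ∑ j, n j • Lp j v else
    ∑ j, n j • Lm j v + c * (2 * Real.pi), ?_, ?_⟩
  · refine Continuous.if_le ?_ ?_ continuous_const (by fun_prop) ?_
    · exact continuous_finsetSum _ fun j _ => by
        simp only [zsmul_eq_mul]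
        exact continuous_const.mul (cp j)
    · exact (continuous_finsetSum _ fun j _ => by
        simp only [zsmul_eq_mul]
        exact continuous_const.mul (cm j)).add continuous_const
    · intro v hv
      exact hreal v hv.symm
  · intro v
    have hz : ((c * (2 * Real.pi) : ℝ) : Real.Angle) = 0 := by
      rw [Real.Angle.coe_eq_zero_iff]
      exact ⟨c, by rw [zsmul_eq_mul]⟩
    have hs : ∀ L : Fin m → ℝ, ((∑ j, n j • L j : ℝ) : Real.Angle) =
        ∑ j, n j • (L j : Real.Angle) := by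
      intro L
      have := map_sum Real.Angle.coeHom (fun j => n j • L j) univ
      simp only [Real.Angle.coe_coeHom, Real.Angle.coe_zsmul] at this
      exact this
    simp only
    split_ifs with h
    · rw [hs]
      exact sum_congr rfl fun j _ => by rw [hp' j v h]
    · push Not at h
      rw [Real.Angle.coe_add, hz, add_zero, hs]
      exact sum_congr rfl fun j _ => by rw [hm'' j v h.le]

end

end Pool.Agent.Lib.MP_84984d_gt
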