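import Pool.Agent.Lib.MP_84984d_gt.Cover

set_option autoImplicit false

/-!
The level sets are compact, connected and regular; the one of degree one has a Heegaard splitting
of genus two.
-/

namespace Pool.Agent.Lib.MP_84984d_gt

open unitInterval Topology Finset

/-- The defining function. -/
noncomputable def FF (r : ℕ) (p : ℂ × ℂ) : ℝ := ‖p.2‖ ^ 2 - GG 2 (p.1 ^ r)

theorem mem_MM_iff {r : ℕ} {p : ℂ × ℂ} : p ∈ MM r ↔ FF r p = 0 := by
  unfold FF MM
  rw [sub_eq_zero]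
  rfl

theorem GG_smooth (g : ℕ) : ContDiff ℝ ⊤ (GG g) := by
  unfold GG
  refine ContDiff.mul (contDiff_const.sub (contDiff_norm_sq ℝ)) ?_
  refine contDiff_prod fun j _ => ?_
  exact (contDiff_id.sub contDiff_const).norm_sq ℝ |>.sub contDiff_const

theorem FF_smooth (r : ℕ) : ContDiff ℝ ⊤ (FF r) := by
  unfold FF
  refine ContDiff.sub (contDiff_snd.norm_sq ℝ) ?_
  exact (GG_smooth 2).comp (contDiff_fst.pow r)

theorem norm_curve (y w : ℂ) : HasDerivAt (fun s : ℝ => ‖y + s * w‖ ^ 2)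
    (2 * (y.re * w.re + y.im * w.im)) 0 := by
  have h1 : (fun s : ℝ => ‖y + s * w‖ ^ 2) = fun s : ℝ => (y.re + s * w.re) ^ 2 +
      (y.im + s * w.im) ^ 2 := by
    funext s
    rw [norm_sq]
    simp
  rw [h1]
  have h2 : HasDerivAt (fun s : ℝ => (y.re + s * w.re)) w.re 0 := by
    simpa using ((hasDerivAt_id (0 : ℝ)).mul_const w.re).const_add y.re
  have h3 : HasDerivAt (fun s : ℝ => (y.im + s * w.im)) w.im 0 := by
    simpa using ((hasDerivAt_id (0 : ℝ)).mul_const w.im).const_add y.im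
  have h4 := (h2.pow 2).add (h3.pow 2)
  refine HasDerivAt.congr_deriv h4 ?_
  simp
  ring

theorem GG_two (y : ℂ) : GG 2 y = (81 - ‖y‖ ^ 2) * ((‖y‖ ^ 2 - 1) * (‖y - 4‖ ^ 2 - 1)) := by
  unfold GG
  rw [prod_range_succ, prod_range_one]
  norm_num

theorem GG_curve (y w : ℂ) : HasDerivAt (fun s : ℝ => GG 2 (y + s * w))
    (-(2 * (y.re * w.re + y.im * w.im)) * ((‖y‖ ^ 2 - 1) * (‖y - 4‖ ^ 2 - 1)) +
      (81 - ‖y‖ ^ 2) * (2 * (y.re * w.re + y.im * w.im) * (‖y - 4‖ ^ 2 - 1) +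
        (‖y‖ ^ 2 - 1) * (2 * ((y.re - 4) * w.re + y.im * w.im)))) 0 := by
  have h1 := norm_curve y w
  have h2 := norm_curve (y - 4) w
  have h3 : (fun s : ℝ => GG 2 (y + s * w)) = fun s : ℝ => (81 - ‖y + s * w‖ ^ 2) *
      ((‖y + s * w‖ ^ 2 - 1) * (‖y - 4 + s * w‖ ^ 2 - 1)) := by
    funext s
    rw [GG_two]
    congr 4
    ring_nf
  rw [h3]
  have h4 := (h1.const_sub 81).mul ((h1.sub_const 1).mul (h2.sub_const 1))
  refine HasDerivAt.congr_deriv h4 ?_
  simp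

theorem GG_fderiv {y : ℂ} (h0 : GG 2 y = 0) : ∃ w : ℂ, fderiv ℝ (GG 2) y w ≠ 0 := by
  have hP := mem_Pl_of h0.ge
  have hd : DifferentiableAt ℝ (GG 2) y := (GG_smooth 2).differentiable (by simp) y
  have hw : ∀ w : ℂ, fderiv ℝ (GG 2) y w =
      (-(2 * (y.re * w.re + y.im * w.im)) * ((‖y‖ ^ 2 - 1) * (‖y - 4‖ ^ 2 - 1)) +
      (81 - ‖y‖ ^ 2) * (2 * (y.re * w.re + y.im * w.im) * (‖y - 4‖ ^ 2 - 1) +
        (‖y‖ ^ 2 - 1) * (2 * ((y.re - 4) * w.re + y.im * w.im)))) := by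
    intro w
    have h1 := GG_curve y w
    have h2 : HasDerivAt (fun s : ℝ => y + s * w) w 0 := by
      have := ((Complex.ofRealCLM.hasDerivAt (x := (0 : ℝ))).mul_const w).const_add y
      simpa using this
    have h3 : HasFDerivAt (GG 2) (fderiv ℝ (GG 2) y) (y + ((0 : ℝ) : ℂ) * w) := by
      simpa using hd.hasFDerivAt
    have h4 := h3.comp_hasDerivAt (0 : ℝ) h2
    exact h4.unique h1
  have e1 := norm_sq y
  have e2 : ‖y - 4‖ ^ 2 = (y.re - 4) ^ 2 + y.im ^ 2 := by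
    rw [norm_sq]
    simp
  rw [mem_Pl_sq] at hP
  obtain ⟨h1, h2⟩ := hP
  have h3 := h2 0 (by norm_num)
  have h4 := h2 1 (by norm_num)
  push_cast at h1 h3 h4
  rw [GG_two] at h0
  rcases mul_eq_zero.1 h0 with h5 | h5
  · refine ⟨y, ?_⟩
    rw [hw y, e1, e2]
    rw [e1] at h5
    have h6 : y.re ^ 2 + y.im ^ 2 = 81 := by linarith
    have h7 : y.re ≤ 9 := by nlinarith [sq_nonneg y.im]
    have h8 : 0 < (y.re - 4) ^ 2 + y.im ^ 2 - 1 := by nlinarith
    have h9 : y.re * y.re + y.im * y.im = 81 := by linarith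
    rw [h5, h9, h6]
    norm_num
    exact h8.ne'
  · rcases mul_eq_zero.1 h5 with h6 | h6
    · refine ⟨y, ?_⟩
      rw [hw y, e1, e2]
      rw [e1] at h6
      have h7 : y.re ^ 2 + y.im ^ 2 = 1 := by linarith
      have h8 : y.re ≤ 1 := by nlinarith [sq_nonneg y.im]
      have h9 : 0 < (y.re - 4) ^ 2 + y.im ^ 2 - 1 := by nlinarith
      have h10 : y.re * y.re + y.im * y.im = 1 := by linarith
      rw [h10, h7]
      norm_num
      exact h9.ne'
    · refine ⟨y - 4, ?_⟩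
      rw [hw (y - 4), e1, e2]
      rw [e2] at h6
      have h7 : (y.re - 4) ^ 2 + y.im ^ 2 = 1 := by linarith
      have h8 : y.re ≤ 5 := by nlinarith [sq_nonneg y.im]
      have h9 : 3 ≤ y.re := by nlinarith [sq_nonneg y.im]
      have h10 : (y - 4).re = y.re - 4 := by simp
      have h11 : (y - 4).im = y.im := by simp
      rw [h10, h11]
      have h12 : (y.re - 4) * (y.re - 4) + y.im * y.im = 1 := by linarith
      rw [h12, h7]
      have h13 : y.im ^ 2 ≤ 1 := by nlinarith [sq_nonneg (y.re - 4)]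
      have h14 : 0 < 81 - (y.re ^ 2 + y.im ^ 2) := by nlinarith
      have h15 : 0 < y.re ^ 2 + y.im ^ 2 - 1 := by nlinarith [sq_nonneg y.im]
      norm_num
      exact ⟨h14.ne', h15.ne'⟩

/-- The level set is regular. -/
theorem FF_fderiv {r : ℕ} (hr : r ≠ 0) {p : ℂ × ℂ} (hp : p ∈ MM r) : fderiv ℝ (FF r) p ≠ 0 := by
  intro hzero
  have hd : DifferentiableAt ℝ (FF r) p := (FF_smooth r).differentiable (by simp) p
  by_cases hz : p.2 = 0
  · have h0 : GG 2 (p.1 ^ r) = 0 := by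
      have : ‖p.2‖ ^ 2 = GG 2 (p.1 ^ r) := hp
      rw [← this, hz]
      simp
    obtain ⟨w, hw⟩ := GG_fderiv h0
    have hx : p.1 ≠ 0 := fst_ne hr hp
    have hc : (r : ℂ) * p.1 ^ (r - 1) ≠ 0 :=
      mul_ne_zero (by exact_mod_cast hr) (pow_ne_zero _ hx)
    obtain ⟨v, hv⟩ : ∃ v : ℂ, (r : ℂ) * p.1 ^ (r - 1) * v = w := ⟨w / ((r : ℂ) * p.1 ^ (r - 1)), by
      field_simp⟩
    -- the curve `s ↦ (x + s v, 0)`
    have h2 : HasDerivAt (fun s : ℝ => ((p.1 + s * v, 0) : ℂ × ℂ)) ((v, 0) : ℂ × ℂ) 0 := by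
      have h3 : HasDerivAt (fun s : ℝ => p.1 + s * v) v 0 := by
        have := ((Complex.ofRealCLM.hasDerivAt (x := (0 : ℝ))).mul_const v).const_add p.1
        simpa using this
      exact h3.prodMk (hasDerivAt_const (0 : ℝ) (0 : ℂ))
    have h4 : HasFDerivAt (FF r) (fderiv ℝ (FF r) p)
        ((fun s : ℝ => ((p.1 + s * v, 0) : ℂ × ℂ)) 0) := by
      have : (fun s : ℝ => ((p.1 + s * v, 0) : ℂ × ℂ)) 0 = p := by
        apply Prod.ext
        · simp
        · simp [hz]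
      rw [this]
      exact hd.hasFDerivAt
    have h5 := h4.comp_hasDerivAt (0 : ℝ) h2
    rw [hzero] at h5
    have h6 : HasDerivAt (fun s : ℝ => (p.1 + s * v) ^ r) w 0 := by
      have h3 : HasDerivAt (fun s : ℝ => p.1 + s * v) v 0 := by
        have := ((Complex.ofRealCLM.hasDerivAt (x := (0 : ℝ))).mul_const v).const_add p.1
        simpa using this
      have := h3.pow r
      refine HasDerivAt.congr_deriv this ?_
      rw [← hv]
      simp
    have h7 : HasFDerivAt (GG 2) (fderiv ℝ (GG 2) (p.1 ^ r))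
        ((fun s : ℝ => (p.1 + s * v) ^ r) 0) := by
      have : (fun s : ℝ => (p.1 + s * v) ^ r) 0 = p.1 ^ r := by simp
      rw [this]
      exact ((GG_smooth 2).differentiable (by simp) _).hasFDerivAt
    have h8 := (h7.comp_hasDerivAt (0 : ℝ) h6).neg
    have h9 : (FF r ∘ fun s : ℝ => ((p.1 + s * v, 0) : ℂ × ℂ)) =
        -(GG 2 ∘ fun s : ℝ => (p.1 + s * v) ^ r) := by
      funext s
      simp [FF]
    rw [h9] at h5
    have h10 := h8.unique h5
    simp at h10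
    exact hw h10
  · have h2 : HasDerivAt (fun s : ℝ => ((p.1, p.2 + s * p.2) : ℂ × ℂ)) ((0, p.2) : ℂ × ℂ) 0 := by
      have h3 : HasDerivAt (fun s : ℝ => p.2 + s * p.2) p.2 0 := by
        have := ((Complex.ofRealCLM.hasDerivAt (x := (0 : ℝ))).mul_const p.2).const_add p.2
        simpa using this
      exact (hasDerivAt_const (0 : ℝ) p.1).prodMk h3
    have h4 : HasFDerivAt (FF r) (fderiv ℝ (FF r) p)
        ((fun s : ℝ => ((p.1, p.2 + s * p.2) : ℂ × ℂ)) 0) := by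
      have : (fun s : ℝ => ((p.1, p.2 + s * p.2) : ℂ × ℂ)) 0 = p := by
        apply Prod.ext
        · simp
        · simp
      rw [this]
      exact hd.hasFDerivAt
    have h5 := h4.comp_hasDerivAt (0 : ℝ) h2
    rw [hzero] at h5
    have h6 := (norm_curve p.2 p.2).sub_const (GG 2 (p.1 ^ r))
    have h7 := h6.unique h5
    simp at h7
    apply hz
    have h8 : p.2.re ^ 2 + p.2.im ^ 2 = 0 := by linarith
    apply Complex.ext
    · have : p.2.re ^ 2 = 0 := by nlinarith [sq_nonneg p.2.re, sq_nonneg p.2.im]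
      simpa using this
    · have : p.2.im ^ 2 = 0 := by nlinarith [sq_nonneg p.2.re, sq_nonneg p.2.im]
      simpa using this

/-! ### compactness -/

theorem MM_closed (r : ℕ) : IsClosed (MM r) := by
  have : MM r = FF r ⁻¹' {0} := by
    ext p
    rw [mem_MM_iff]
    rfl
  rw [this]
  exact isClosed_singleton.preimage (FF_smooth r).continuous

theorem fst_norm {r : ℕ} (hr : r ≠ 0) {x : ℂ} (h : x ^ r ∈ Pl 2) : ‖x‖ ≤ 9 := by
  have h1 := h.1
  rw [norm_pow] at h1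
  norm_num at h1
  by_contra h2
  push Not at h2
  have h3 : ‖x‖ ^ 1 ≤ ‖x‖ ^ r := pow_le_pow_right₀ (by linarith) (by omega)
  rw [pow_one] at h3
  linarith

theorem MM_compact {r : ℕ} (hr : r ≠ 0) : IsCompact (MM r) := by
  obtain ⟨C, hC⟩ := (isCompact_closedBall (0 : ℂ) 9).exists_bound_of_continuousOn
    (GG_cont 2).continuousOn
  refine ((isCompact_closedBall (0 : ℂ) 9).prod (isCompact_closedBall (0 : ℂ) (C + 1))).of_isClosed_subset
    (MM_closed r) ?_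
  rintro ⟨x, z⟩ h
  have h1 := MM_pow h
  have h2 : ‖z‖ ^ 2 = GG 2 (x ^ r) := h
  have h3 : ‖GG 2 (x ^ r)‖ ≤ C := hC _ (by
    rw [mem_closedBall_zero_iff]
    have := h1.1
    norm_num at this ⊢
    exact this)
  have h4 : GG 2 (x ^ r) ≤ C := (le_abs_self _).trans h3
  refine ⟨by rw [mem_closedBall_zero_iff]; exact fst_norm hr h1, ?_⟩
  rw [mem_closedBall_zero_iff]
  show ‖z‖ ≤ C + 1
  nlinarith [norm_nonneg z, sq_nonneg (‖z‖ - 1)]

/-! ### the splitting of genus two -/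

theorem half_mem {ε : ℝ} (hε : ε ^ 2 = 1) {p : ℂ × ℝ} (h : p ∈ Hb 2) :
    ((p.1, (⟨p.2, ε * √(GG 2 p.1 - p.2 ^ 2)⟩ : ℂ)) : ℂ × ℂ) ∈ MM 1 := by
  show ‖(⟨p.2, ε * √(GG 2 p.1 - p.2 ^ 2)⟩ : ℂ)‖ ^ 2 = GG 2 (p.1 ^ 1)
  have h1 : p.2 ^ 2 ≤ GG 2 p.1 := h
  rw [norm_sq]
  simp only
  rw [mul_pow, hε, Real.sq_sqrt (by linarith), pow_one]
  ring

/-- The two handlebodies. -/
noncomputable def half (ε : ℝ) (hε : ε ^ 2 = 1) (p : Hb 2) : MM 1 := ⟨_, half_mem hε p.2⟩

theorem half_emb {ε : ℝ} (hε : ε ^ 2 = 1) : IsClosedEmbedding (half ε hε) := by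
  have hcont : Continuous (half ε hε) := by
    unfold half
    refine Continuous.subtype_mk (Continuous.prodMk (by fun_prop) (mk_cont (by fun_prop) ?_)) _
    refine continuous_const.mul (Continuous.sqrt ?_)
    exact ((GG_cont 2).comp (by fun_prop)).sub (by fun_prop)
  have hmem : ∀ q : MM 1, (((q : ℂ × ℂ).1, (q : ℂ × ℂ).2.re) : ℂ × ℝ) ∈ Hb 2 := by
    rintro ⟨⟨y, z⟩, h⟩
    have h1 : ‖z‖ ^ 2 = GG 2 (y ^ 1) := h
    rw [pow_one, norm_sq] at h1
    show z.re ^ 2 ≤ GG 2 y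
    nlinarith [sq_nonneg z.im]
  have hinv : Function.LeftInverse (fun q : MM 1 => (⟨_, hmem q⟩ : Hb 2)) (half ε hε) := by
    intro p
    apply Subtype.ext
    rfl
  exact hinv.isClosedEmbedding (Continuous.subtype_mk (by fun_prop) _) hcont

theorem range_half {ε : ℝ} (hε : ε ^ 2 = 1) :
    Set.range (half ε hε) = {q : MM 1 | 0 ≤ ε * (q : ℂ × ℂ).2.im} := by
  have hε' : ε = 1 ∨ ε = -1 := by
    have h3 : (ε - 1) * (ε + 1) = 0 := by linear_combination hε
    rcases mul_eq_zero.1 h3 with h4 | h4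
    · left; linarith
    · right; linarith
  ext q
  constructor
  · rintro ⟨p, rfl⟩
    show 0 ≤ ε * (ε * √(GG 2 (p : ℂ × ℝ).1 - (p : ℂ × ℝ).2 ^ 2))
    rw [← mul_assoc, ← sq, hε, one_mul]
    positivity
  · intro h
    obtain ⟨⟨y, z⟩, hq⟩ := q
    have h1 : ‖z‖ ^ 2 = GG 2 (y ^ 1) := hq
    rw [pow_one, norm_sq] at h1
    have h2 : 0 ≤ ε * z.im := h
    refine ⟨⟨(y, z.re), ?_⟩, ?_⟩
    · show z.re ^ 2 ≤ GG 2 y
      nlinarith [sq_nonneg z.im]
    · apply Subtype.ext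
      apply Prod.ext
      · rfl
      · apply Complex.ext
        · rfl
        · show ε * √(GG 2 y - z.re ^ 2) = z.im
          have h3 : GG 2 y - z.re ^ 2 = z.im ^ 2 := by linarith
          rw [h3, Real.sqrt_sq_eq_abs]
          rcases hε' with rfl | rfl
          · rw [one_mul] at h2 ⊢
            exact abs_of_nonneg h2
          · rw [abs_of_nonpos (by linarith)]
            ring

theorem bd_half {ε : ℝ} (hε : ε ^ 2 = 1) :
    half ε hε '' {v : Hb 2 | (v : ℂ × ℝ) ∈ HbBd 2} = {q : MM 1 | (q : ℂ × ℂ).2.im = 0} := by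
  have hε0 : ε ≠ 0 := by
    rintro rfl
    norm_num at hε
  ext q
  constructor
  · rintro ⟨p, hp, rfl⟩
    have h1 : (p : ℂ × ℝ).2 ^ 2 = GG 2 (p : ℂ × ℝ).1 := hp
    show ε * √(GG 2 (p : ℂ × ℝ).1 - (p : ℂ × ℝ).2 ^ 2) = 0
    rw [h1, sub_self, Real.sqrt_zero, mul_zero]
  · intro h
    have h0 : (q : ℂ × ℂ).2.im = 0 := h
    have h1 : q ∈ Set.range (half ε hε) := by
      rw [range_half]
      show 0 ≤ ε * (q : ℂ × ℂ).2.im
      rw [h0, mul_zero]
    obtain ⟨p, rfl⟩ := h1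
    refine ⟨p, ?_, rfl⟩
    have h2 : ε * √(GG 2 (p : ℂ × ℝ).1 - (p : ℂ × ℝ).2 ^ 2) = 0 := h0
    have h3 := (mul_eq_zero.1 h2).resolve_left hε0
    have h4 : (p : ℂ × ℝ).2 ^ 2 ≤ GG 2 (p : ℂ × ℝ).1 := p.2
    rw [Real.sqrt_eq_zero (by linarith)] at h3
    show (p : ℂ × ℝ).2 ^ 2 = GG 2 (p : ℂ × ℝ).1
    linarith

/-- `MM 1` has a Heegaard splitting of genus two. -/
theorem splitting_two : HasSplitting (MM 1) 2 := by
  have h1 : (1 : ℝ) ^ 2 = 1 := by norm_num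
  have h2 : (-1 : ℝ) ^ 2 = 1 := by norm_num
  have hi : Set.range (half 1 h1) ∩ Set.range (half (-1) h2) =
      {q : MM 1 | (q : ℂ × ℂ).2.im = 0} := by
    rw [range_half, range_half]
    ext q
    simp only [Set.mem_inter_iff, Set.mem_ofPred_eq]
    constructor
    · rintro ⟨h3, h4⟩
      linarith
    · intro h3
      rw [h3]
      norm_num
  refine ⟨half 1 h1, half (-1) h2, half_emb h1, half_emb h2, ?_, ?_, ?_⟩
  · rw [range_half, range_half]
    ext q
    simp only [Set.mem_union, Set.mem_ofPred_eq, Set.mem_univ, iff_true]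
    rcases le_total 0 (q : ℂ × ℂ).2.im with h | h
    · left; linarith
    · right; linarith
  · rw [hi, bd_half]
  · rw [hi, bd_half]

end Pool.Agent.Lib.MP_84984d_gt
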