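import Pool.Agent.Lib.MP_84984d_gt.Glue

set_option autoImplicit false

/-!
Heegaard splittings and maps to the circle.
-/

namespace Pool.Agent.Lib.MP_84984d_gt

open unitInterval Topology Finset

/-- `M` has a Heegaard splitting of genus `g`: it is the union of two closed subsets homeomorphic
to the handlebody of genus `g`, whose intersection is the boundary of both. -/
def HasSplitting (M : Type*) [TopologicalSpace M] (g : ℕ) : Prop :=
  ∃ e₁ e₂ : Hb g → M, IsClosedEmbedding e₁ ∧ IsClosedEmbedding e₂ ∧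
    Set.range e₁ ∪ Set.range e₂ = Set.univ ∧
    Set.range e₁ ∩ Set.range e₂ = e₁ '' {v | (v : ℂ × ℝ) ∈ HbBd g} ∧
    Set.range e₁ ∩ Set.range e₂ = e₂ '' {v | (v : ℂ × ℝ) ∈ HbBd g}

/-- Gluing two functions. -/
theorem glue {M A B : Type*} [TopologicalSpace M] [TopologicalSpace A] [TopologicalSpace B]
    {e₁ : A → M} {e₂ : B → M} (h₁ : IsClosedEmbedding e₁) (h₂ : IsClosedEmbedding e₂)
    (hu : Set.range e₁ ∪ Set.range e₂ = Set.univ) (f₁ : A → ℝ) (f₂ : B → ℝ) (c₁ : Continuous f₁)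
    (c₂ : Continuous f₂) (h : ∀ a b, e₁ a = e₂ b → f₁ a = f₂ b) :
    ∃ f : M → ℝ, Continuous f ∧ (∀ a, f (e₁ a) = f₁ a) ∧ ∀ b, f (e₂ b) = f₂ b := by
  classical
  let f : M → ℝ := fun x => if hx : ∃ a, e₁ a = x then f₁ hx.choose else
    if hx : ∃ b, e₂ b = x then f₂ hx.choose else 0
  have hf₁ : ∀ a, f (e₁ a) = f₁ a := by
    intro a
    have hx : ∃ a', e₁ a' = e₁ a := ⟨a, rfl⟩
    simp only [f, dif_pos hx]
    rw [h₁.injective hx.choose_spec]
  have hf₂ : ∀ b, f (e₂ b) = f₂ b := by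
    intro b
    by_cases hx : ∃ a, e₁ a = e₂ b
    · obtain ⟨a, ha⟩ := hx
      rw [← ha, hf₁, h a b ha]
    · have hx' : ∃ b', e₂ b' = e₂ b := ⟨b, rfl⟩
      simp only [f, dif_neg hx, dif_pos hx']
      rw [h₂.injective hx'.choose_spec]
  refine ⟨f, ?_, hf₁, hf₂⟩
  rw [continuous_iff_isClosed]
  intro C hC
  have : f ⁻¹' C = e₁ '' (f₁ ⁻¹' C) ∪ e₂ '' (f₂ ⁻¹' C) := by
    ext x
    constructor
    · intro hx
      have hx' : x ∈ Set.range e₁ ∪ Set.range e₂ := by rw [hu]; trivial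
      rcases hx' with ⟨a, rfl⟩ | ⟨b, rfl⟩
      · left
        exact ⟨a, by rw [Set.mem_preimage, ← hf₁]; exact hx, rfl⟩
      · right
        exact ⟨b, by rw [Set.mem_preimage, ← hf₂]; exact hx, rfl⟩
    · rintro (⟨a, ha, rfl⟩ | ⟨b, hb, rfl⟩)
      · rw [Set.mem_preimage, hf₁]; exact ha
      · rw [Set.mem_preimage, hf₂]; exact hb
  rw [this]
  exact (h₁.isClosedMap _ (hC.preimage c₁)).union (h₂.isClosedMap _ (hC.preimage c₂))

/-- If `M` has a Heegaard splitting of genus `g`, then more than `g` maps from `M` to the circle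
are dependent. -/
theorem HasSplitting.exists_rel {M : Type*} [TopologicalSpace M] {g m : ℕ}
    (hM : HasSplitting M g) (hm : g < m) (u : Fin m → M → Real.Angle)
    (hu : ∀ j, Continuous (u j)) : ∃ n : Fin m → ℤ, n ≠ 0 ∧ ∃ θ : M → ℝ, Continuous θ ∧
      ∀ x, (θ x : Real.Angle) = ∑ j, n j • u j x := by
  obtain ⟨e₁, e₂, h₁, h₂, hu', hi₁, hi₂⟩ := hM
  obtain ⟨n, hn, θ₁, cθ₁, hθ₁⟩ := Pool.Agent.Lib.MP_84984d_gt.exists_rel hm
    (fun j v => u j (e₁ v)) fun j => (hu j).comp h₁.continuous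
  refine ⟨n, hn, ?_⟩
  have hw : Continuous fun x => ∑ j, n j • u j x :=
    continuous_finsetSum _ fun j _ => (hu j).zsmul (n j)
  have hex : ∀ v : HbBd g, ∃ a, e₁ a = e₂ ⟨v, bd_sub v.2⟩ := by
    intro v
    have : e₂ ⟨v, bd_sub v.2⟩ ∈ Set.range e₁ ∩ Set.range e₂ := by
      rw [hi₂]
      exact ⟨_, v.2, rfl⟩
    exact this.1
  choose ψ hψ using hex
  have cψ : Continuous ψ := by
    rw [h₁.isInducing.continuous_iff]
    have : e₁ ∘ ψ = fun v : HbBd g => e₂ ⟨v, bd_sub v.2⟩ := funext hψ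
    rw [this]
    exact h₂.continuous.comp (Continuous.subtype_mk continuous_subtype_val _)
  obtain ⟨Θ, cΘ, hΘ, hΘ'⟩ := extend_log (fun v => ∑ j, n j • u j (e₂ v))
    (hw.comp h₂.continuous) (fun v => θ₁ (ψ v)) (cθ₁.comp cψ) (by
      intro v
      rw [hθ₁, hψ])
  obtain ⟨θ, cθ, ha, hb⟩ := glue h₁ h₂ hu' θ₁ Θ cθ₁ cΘ (by
    intro a b hab
    have hmem : e₂ b ∈ Set.range e₁ ∩ Set.range e₂ := ⟨⟨a, hab⟩, ⟨b, rfl⟩⟩
    rw [hi₂] at hmem
    obtain ⟨b', hb', hbb⟩ := hmem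
    have hbb' := h₂.injective hbb
    subst hbb'
    have h3 := hΘ' ⟨b', hb'⟩
    rw [h3]
    congr 1
    apply h₁.injective
    rw [hψ, hab])
  refine ⟨θ, cθ, fun x => ?_⟩
  have hx' : x ∈ Set.range e₁ ∪ Set.range e₂ := by rw [hu']; trivial
  rcases hx' with ⟨a, rfl⟩ | ⟨b, rfl⟩
  · rw [ha, hθ₁]
  · rw [hb, hΘ]

end Pool.Agent.Lib.MP_84984d_gt
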