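import Pool.Agent.Lib.MP_84984d_gt.Conn

set_option autoImplicit false

/-!
The mapping tori.
-/

namespace Pool.Agent.Lib.MP_84984d_gt

open unitInterval Topology Finset

/-- The relation `(x, 1) ∼ (φ x, 0)`. -/
def MTRel {M : Type*} (φ : M → M) (a b : M × unitInterval) : Prop :=
  ∃ x : M, a = (x, 1) ∧ b = (φ x, 0)

/-- The mapping torus `M × [0, 1] / ((x, 1) ∼ (φ x, 0))`. -/
def MT {M : Type*} (φ : M → M) : Type _ := Quot (MTRel φ)

instance {M : Type*} [TopologicalSpace M] (φ : M → M) : TopologicalSpace (MT φ) :=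
  inferInstanceAs (TopologicalSpace (Quot (MTRel φ)))

/-- The rotation `(x, z) ↦ (ζ x, z)`, `ζ = exp (2 π i / r)`. -/
noncomputable def ph (r : ℕ) (p : ℂ × ℂ) : ℂ × ℂ := (zt r * p.1, p.2)

/-- The map from `M × ℝ` to `N × S¹`. -/
noncomputable def QQ (r : ℕ) (p : (ℂ × ℂ) × ℝ) : (ℂ × ℂ) × ℂ :=
  ((p.1.1 ^ r, p.1.2), p.1.1 / ‖p.1.1‖ * Complex.exp (2 * Real.pi * Complex.I * p.2 / r))

section

variable {r : ℕ}

theorem ph_mem (hr : r ≠ 0) (p : ℂ × ℂ) : ph r p ∈ MM r ↔ p ∈ MM r := by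
  unfold ph MM
  simp only [Set.mem_ofPred_eq]
  rw [mul_pow, (zt_prim hr).pow_eq_one, one_mul]

theorem QQ_mem (hr : r ≠ 0) {p : ℂ × ℂ} (hp : p ∈ MM r) (t : ℝ) :
    QQ r (p, t) ∈ MM 1 ×ˢ Metric.sphere (0 : ℂ) 1 := by
  have hx : p.1 ≠ 0 := fst_ne hr hp
  refine ⟨?_, ?_⟩
  · show ‖p.2‖ ^ 2 = GG 2 ((p.1 ^ r) ^ 1)
    rw [pow_one]
    exact hp
  · rw [mem_sphere_zero_iff_norm]
    show ‖p.1 / ‖p.1‖ * Complex.exp (2 * Real.pi * Complex.I * t / r)‖ = 1
    have h1 : (2 * Real.pi * Complex.I * t / r : ℂ) = ((2 * Real.pi * t / r : ℝ) : ℂ) *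
        Complex.I := by
      push_cast
      ring
    rw [norm_mul, h1, Complex.norm_exp_ofReal_mul_I, mul_one, norm_div, Complex.norm_real,
      norm_norm, div_self (norm_ne_zero_iff.2 hx)]

theorem QQ_smooth (r : ℕ) : ContDiffOn ℝ ⊤ (QQ r) {p | p.1.1 ≠ 0} := by
  intro p hp
  apply ContDiffAt.contDiffWithinAt
  have hp' : p.1.1 ≠ 0 := hp
  have h1 : ContDiff ℝ ⊤ fun p : (ℂ × ℂ) × ℝ => p.1.1 := contDiff_fst.comp contDiff_fst
  have h2 : ContDiff ℝ ⊤ fun p : (ℂ × ℂ) × ℝ => p.1.2 := contDiff_snd.comp contDiff_fst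
  have h3 : ContDiff ℝ ⊤ fun p : (ℂ × ℂ) × ℝ => (p.2 : ℂ) :=
    Complex.ofRealCLM.contDiff.comp contDiff_snd
  unfold QQ
  refine ContDiffAt.prodMk ((h1.pow r).prodMk h2).contDiffAt ?_
  refine ContDiffAt.mul ?_ ?_
  · simp only [div_eq_mul_inv]
    refine h1.contDiffAt.mul (ContDiffAt.inv ?_ ?_)
    · exact Complex.ofRealCLM.contDiff.contDiffAt.comp p (h1.contDiffAt.norm ℝ hp')
    · exact_mod_cast norm_ne_zero_iff.2 hp'
  · exact ((contDiff_const.mul h3).div_const _).contDiffAt.cexp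

theorem QQ_inj (hr : r ≠ 0) {p : (ℂ × ℂ) × ℝ} (hp : p.1.1 ≠ 0) :
    Function.Injective (fderiv ℝ (QQ r) p) := by
  rw [injective_iff_map_eq_zero]
  rintro v hv
  have hd : DifferentiableAt ℝ (QQ r) p := by
    have := (QQ_smooth r p hp).contDiffAt (IsOpen.mem_nhds (isOpen_ne_fun (by fun_prop)
      continuous_const) hp)
    exact this.differentiableAt (by simp)
  have hcurve : HasDerivAt (fun s : ℝ => p + s • v) v 0 := by
    have := ((hasDerivAt_id (0 : ℝ)).smul_const v).const_add p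
    simpa using this
  have h0 : HasFDerivAt (QQ r) (fderiv ℝ (QQ r) p) ((fun s : ℝ => p + s • v) 0) := by
    have : (fun s : ℝ => p + s • v) 0 = p := by simp
    rw [this]
    exact hd.hasFDerivAt
  have h1 := h0.comp_hasDerivAt (0 : ℝ) hcurve
  rw [hv] at h1
  have ha : v.1.1 = 0 := by
    have e1 := (((ContinuousLinearMap.fst ℝ ℂ ℂ).comp
      (ContinuousLinearMap.fst ℝ (ℂ × ℂ) ℂ)).hasFDerivAt).comp_hasDerivAt (0 : ℝ) h1
    have e2 : HasDerivAt (fun s : ℝ => p.1.1 + s * v.1.1) v.1.1 0 := by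
      have := ((Complex.ofRealCLM.hasDerivAt (x := (0 : ℝ))).mul_const v.1.1).const_add p.1.1
      simpa using this
    have e3 := e2.pow r
    have e4 : ((fun s : ℝ => p.1.1 + s * v.1.1) ^ r) = (((ContinuousLinearMap.fst ℝ ℂ ℂ).comp
      (ContinuousLinearMap.fst ℝ (ℂ × ℂ) ℂ)) ∘ (QQ r ∘ fun s : ℝ => p + s • v)) := by
      funext s
      simp [QQ]
    rw [← e4] at e1
    have e5 := e3.unique e1
    simp at e5
    rcases e5 with (h | h) | h
    · exact absurd h hr
    · exact absurd h.1 hp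
    · exact h
  have hb : v.1.2 = 0 := by
    have e1 := (((ContinuousLinearMap.snd ℝ ℂ ℂ).comp
      (ContinuousLinearMap.fst ℝ (ℂ × ℂ) ℂ)).hasFDerivAt).comp_hasDerivAt (0 : ℝ) h1
    have e2 : HasDerivAt (fun s : ℝ => p.1.2 + s * v.1.2) v.1.2 0 := by
      have := ((Complex.ofRealCLM.hasDerivAt (x := (0 : ℝ))).mul_const v.1.2).const_add p.1.2
      simpa using this
    have e4 : (fun s : ℝ => p.1.2 + s * v.1.2) = (((ContinuousLinearMap.snd ℝ ℂ ℂ).comp
      (ContinuousLinearMap.fst ℝ (ℂ × ℂ) ℂ)) ∘ (QQ r ∘ fun s : ℝ => p + s • v)) := by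
      funext s
      simp [QQ]
    rw [← e4] at e1
    have e5 := e2.unique e1
    simpa using e5
  have hc : v.2 = 0 := by
    have e1 := ((ContinuousLinearMap.snd ℝ (ℂ × ℂ) ℂ).hasFDerivAt).comp_hasDerivAt (0 : ℝ) h1
    have e2 : HasDerivAt (fun s : ℝ => 2 * Real.pi * Complex.I * ((p.2 + s * v.2 : ℝ) : ℂ) / r)
        (2 * Real.pi * Complex.I * v.2 / r) 0 := by
      have e6 : HasDerivAt (fun s : ℝ => (p.2 + s * v.2)) v.2 0 := by
        simpa using ((hasDerivAt_id (0 : ℝ)).mul_const v.2).const_add p.2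
      exact ((e6.ofReal_comp).const_mul _).div_const _
    have e3 := (e2.cexp).const_mul (p.1.1 / ‖p.1.1‖)
    have e4 : (fun s : ℝ => p.1.1 / ‖p.1.1‖ *
        Complex.exp (2 * Real.pi * Complex.I * ((p.2 + s * v.2 : ℝ) : ℂ) / r)) =
        ((ContinuousLinearMap.snd ℝ (ℂ × ℂ) ℂ) ∘ (QQ r ∘ fun s : ℝ => p + s • v)) := by
      funext s
      simp [QQ, ha]
    rw [← e4] at e1
    have e5 := e3.unique e1
    simp at e5
    rcases e5 with h | h | h
    · exact absurd h hp
    · exact h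
    · exact absurd h hr
  apply Prod.ext
  · apply Prod.ext
    · exact ha
    · exact hb
  · exact hc

theorem zt_exp (r : ℕ) (m : ℤ) : zt r ^ m = Complex.exp (2 * Real.pi * Complex.I * m / r) := by
  unfold zt
  rw [← Complex.exp_int_mul]
  congr 1
  ring

/-- The fibres. -/
theorem QQ_eq (hr : r ≠ 0) {p p' : ℂ × ℂ} (hp : p.1 ≠ 0) (hp' : p'.1 ≠ 0) (t t' : ℝ) :
    QQ r (p, t) = QQ r (p', t') ↔ ∃ m : ℤ, p' = (zt r ^ m * p.1, p.2) ∧ t' = t - m := by
  have hrc : (r : ℂ) ≠ 0 := by exact_mod_cast hr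
  have : NeZero r := ⟨hr⟩
  have hzn : ‖zt r‖ = 1 := Complex.norm_eq_one_of_pow_eq_one (zt_prim hr).pow_eq_one hr
  have hn : (‖p.1‖ : ℂ) ≠ 0 := by exact_mod_cast norm_ne_zero_iff.2 hp
  constructor
  · intro h
    have h1 : p.1 ^ r = p'.1 ^ r := congrArg (fun q => q.1.1) h
    have h2 : p.2 = p'.2 := congrArg (fun q => q.1.2) h
    have h3 : p.1 / ‖p.1‖ * Complex.exp (2 * Real.pi * Complex.I * t / r) =
        p'.1 / ‖p'.1‖ * Complex.exp (2 * Real.pi * Complex.I * t' / r) :=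
      congrArg (fun q => q.2) h
    have h4 : (p'.1 / p.1) ^ r = 1 := by
      rw [div_pow, ← h1, div_self (pow_ne_zero _ hp)]
    obtain ⟨i, hi, hi'⟩ := (zt_prim hr).eq_pow_of_pow_eq_one h4
    have h5 : p'.1 = zt r ^ i * p.1 := by
      rw [hi']
      field_simp
    have h6 : ‖p'.1‖ = ‖p.1‖ := by
      rw [h5, norm_mul, norm_pow, hzn, one_pow, one_mul]
    rw [h5, norm_mul, norm_pow, hzn, one_pow, one_mul] at h3
    have h7 : Complex.exp (2 * Real.pi * Complex.I * t / r) =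
        zt r ^ i * Complex.exp (2 * Real.pi * Complex.I * t' / r) := by
      have h8 : p.1 / ‖p.1‖ ≠ 0 := div_ne_zero hp hn
      apply mul_left_cancel₀ h8
      rw [h3]
      ring
    have h9 : Complex.exp (2 * Real.pi * Complex.I * t / r) =
        Complex.exp (2 * Real.pi * Complex.I * (i : ℤ) / r +
          2 * Real.pi * Complex.I * t' / r) := by
      rw [h7, Complex.exp_add, ← zt_exp, zpow_natCast]
    obtain ⟨k, hk⟩ := Complex.exp_eq_exp_iff_exists_int.1 h9
    have h10 : (t : ℂ) = i + t' + k * r := by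
      have h11 : (2 * Real.pi * Complex.I : ℂ) ≠ 0 := by
        simp [Real.pi_ne_zero, Complex.I_ne_zero]
      field_simp at hk
      have h12 : (2 * Real.pi * Complex.I : ℂ) * t =
          (2 * Real.pi * Complex.I : ℂ) * (i + t' + k * r) := by
        push_cast at hk
        linear_combination (2 * Real.pi * Complex.I : ℂ) * hk
      exact mul_left_cancel₀ h11 h12
    have h13 : t = i + t' + k * r := by exact_mod_cast h10
    refine ⟨i + k * r, ?_, ?_⟩
    · apply Prod.ext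
      · show p'.1 = zt r ^ ((i : ℤ) + k * r) * p.1
        rw [zpow_add₀ ((zt_prim hr).ne_zero hr), mul_comm k, zpow_mul, zpow_natCast, zpow_natCast,
          (zt_prim hr).pow_eq_one, one_zpow, mul_one]
        exact h5
      · exact h2.symm
    · push_cast
      linarith
  · rintro ⟨m, rfl, rfl⟩
    have hz : zt r ≠ 0 := (zt_prim hr).ne_zero hr
    have hzr : (zt r ^ m) ^ r = 1 := by
      rw [← zpow_natCast, ← zpow_mul, mul_comm, zpow_mul, zpow_natCast,
        (zt_prim hr).pow_eq_one, one_zpow]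
    unfold QQ
    simp only
    apply Prod.ext
    · apply Prod.ext
      · simp only
        rw [mul_pow, hzr, one_mul]
      · rfl
    · simp only
      rw [norm_mul, norm_zpow, hzn, one_zpow, one_mul]
      have : Complex.exp (2 * Real.pi * Complex.I * t / r) = zt r ^ m *
          Complex.exp (2 * Real.pi * Complex.I * ((t - m : ℝ) : ℂ) / r) := by
        rw [zt_exp, ← Complex.exp_add]
        congr 1
        push_cast
        ring
      rw [this]
      ring

theorem QQ_surj (hr : r ≠ 0) {q : (ℂ × ℂ) × ℂ} (hq : q ∈ MM 1 ×ˢ Metric.sphere (0 : ℂ) 1) :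
    ∃ p ∈ MM r, ∃ t : ℝ, QQ r (p, t) = q := by
  obtain ⟨⟨y, z⟩, w⟩ := q
  obtain ⟨h1, h2⟩ := hq
  have hrc : (r : ℂ) ≠ 0 := by exact_mod_cast hr
  have h1' : ‖z‖ ^ 2 = GG 2 (y ^ 1) := h1
  rw [pow_one] at h1'
  rw [mem_sphere_zero_iff_norm] at h2
  have h2' : ‖w‖ = 1 := h2
  have hmem : ((rt r y, z) : ℂ × ℂ) ∈ MM r := by
    show ‖z‖ ^ 2 = GG 2 (rt r y ^ r)
    rw [rt_pow hr]
    exact h1'
  have hx : rt r y ≠ 0 := fst_ne hr hmem
  have hn : (‖rt r y‖ : ℂ) ≠ 0 := by exact_mod_cast norm_ne_zero_iff.2 hx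
  obtain ⟨u, hu⟩ : ∃ u : ℂ, u = w / (rt r y / ‖rt r y‖) := ⟨_, rfl⟩
  have hun : ‖u‖ = 1 := by
    rw [hu, norm_div, h2', norm_div, Complex.norm_real, norm_norm,
      div_self (norm_ne_zero_iff.2 hx), div_one]
  refine ⟨_, hmem, r * u.arg / (2 * Real.pi), ?_⟩
  unfold QQ
  apply Prod.ext
  · apply Prod.ext
    · exact rt_pow hr y
    · rfl
  · show rt r y / ‖rt r y‖ * Complex.exp (2 * Real.pi * Complex.I *
      ((r * u.arg / (2 * Real.pi) : ℝ) : ℂ) / r) = w
    have e1 : (2 * Real.pi * Complex.I * ((r * u.arg / (2 * Real.pi) : ℝ) : ℂ) / r : ℂ) =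
        u.arg * Complex.I := by
      have : (Real.pi : ℂ) ≠ 0 := by exact_mod_cast Real.pi_ne_zero
      push_cast
      field_simp
    have e2 := Complex.norm_mul_exp_arg_mul_I u
    rw [hun, Complex.ofReal_one, one_mul] at e2
    rw [e1, e2, hu]
    field_simp

/-- The rotation of `MM r`. -/
noncomputable def phM (r : ℕ) (hr : r ≠ 0) (p : MM r) : MM r := ⟨ph r p, (ph_mem hr _).2 p.2⟩

/-- The mapping torus is the product of `MM 1` and the circle. -/
theorem torus (hr : r ≠ 0) :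
    Nonempty (MT (phM r hr) ≃ₜ MM 1 × Metric.sphere (0 : ℂ) 1) := by
  let F : MM r × unitInterval → MM 1 × Metric.sphere (0 : ℂ) 1 := fun a =>
    (⟨(QQ r (a.1, a.2)).1, (QQ_mem hr a.1.2 a.2).1⟩, ⟨(QQ r (a.1, a.2)).2,
      (QQ_mem hr a.1.2 a.2).2⟩)
  have hFeq : ∀ a b, F a = F b ↔ QQ r ((a.1 : ℂ × ℂ), (a.2 : ℝ)) = QQ r (b.1, b.2) := by
    intro a b
    constructor
    · intro h
      apply Prod.ext
      · exact congrArg (fun q => (q.1 : ℂ × ℂ)) h
      · exact congrArg (fun q => (q.2 : ℂ)) h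
    · intro h
      apply Prod.ext
      · apply Subtype.ext
        exact congrArg (fun q => q.1) h
      · apply Subtype.ext
        exact congrArg (fun q => q.2) h
  have hFc : Continuous F := by
    have h1 : Continuous fun a : MM r × unitInterval => (a.1 : ℂ × ℂ).1 := by fun_prop
    refine Continuous.prodMk (Continuous.subtype_mk ?_ _) (Continuous.subtype_mk ?_ _)
    · exact (h1.pow r).prodMk (by fun_prop)
    · refine Continuous.mul (h1.div (Complex.continuous_ofReal.comp h1.norm) ?_) (by fun_prop)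
      intro a
      exact_mod_cast norm_ne_zero_iff.2 (fst_ne hr a.1.2)
  have hrel : ∀ a b, MTRel (phM r hr) a b → F a = F b := by
    rintro _ _ ⟨x, rfl, rfl⟩
    rw [hFeq, QQ_eq hr (fst_ne hr x.2) (fst_ne hr (phM r hr x).2)]
    refine ⟨1, ?_, ?_⟩
    · simp [phM, ph]
    · simp
  have hinj : ∀ a b, F a = F b → (Quot.mk (MTRel (phM r hr)) a) = Quot.mk _ b := by
    rintro ⟨p, t⟩ ⟨p', t'⟩ h
    rw [hFeq, QQ_eq hr (fst_ne hr p.2) (fst_ne hr p'.2)] at h
    obtain ⟨m, h1, h2⟩ := h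
    have ht0 := t.2.1
    have ht1 := t.2.2
    have ht0' := t'.2.1
    have ht1' := t'.2.2
    have hm1 : m ≤ 1 := by
      have : (m : ℝ) ≤ 1 := by simp only at h2; linarith
      exact_mod_cast this
    have hm2 : -1 ≤ m := by
      have : (-1 : ℝ) ≤ m := by simp only at h2; linarith
      exact_mod_cast this
    have hm3 : m = 0 ∨ m = 1 ∨ m = -1 := by omega
    rcases hm3 with rfl | rfl | rfl
    · have e1 : p' = p := by
        apply Subtype.ext
        simpa using h1
      have e2 : t' = t := by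
        apply Subtype.ext
        simpa using h2
      rw [e1, e2]
    · apply Quot.sound
      refine ⟨p, ?_, ?_⟩
      · have : t = 1 := by
          apply Subtype.ext
          simp only [Set.Icc.coe_one]
          simp at h2
          linarith
        rw [this]
      · have : t' = 0 := by
          apply Subtype.ext
          simp only [Set.Icc.coe_zero]
          simp at h2
          linarith
        rw [this]
        apply Prod.ext
        · apply Subtype.ext
          simpa [phM, ph] using h1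
        · rfl
    · symm
      apply Quot.sound
      refine ⟨p', ?_, ?_⟩
      · have : t' = 1 := by
          apply Subtype.ext
          simp only [Set.Icc.coe_one]
          simp at h2
          linarith
        rw [this]
      · have : t = 0 := by
          apply Subtype.ext
          simp only [Set.Icc.coe_zero]
          simp at h2
          linarith
        rw [this]
        apply Prod.ext
        · apply Subtype.ext
          have hz : zt r ≠ 0 := (zt_prim hr).ne_zero hr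
          simp only [phM, ph]
          rw [h1]
          simp [hz]
        · rfl
  have : CompactSpace (MM r) := isCompact_iff_compactSpace.1 (MM_compact hr)
  have : CompactSpace (MT (phM r hr)) := inferInstanceAs (CompactSpace (Quot _))
  have hbij : Function.Bijective (Quot.lift F hrel : MT (phM r hr) →
      MM 1 × Metric.sphere (0 : ℂ) 1) := by
    constructor
    · rintro ⟨a⟩ ⟨b⟩ h
      exact hinj a b h
    · rintro ⟨⟨n, hn⟩, ⟨w, hw⟩⟩
      obtain ⟨p, hp, t, ht⟩ := QQ_surj hr (q := (n, w)) ⟨hn, hw⟩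
      have hfl0 := Int.floor_le t
      have hfl1 := Int.lt_floor_add_one t
      have hp1 : (((zt r ^ ⌊t⌋ * p.1, p.2) : ℂ × ℂ)) ∈ MM r := by
        have hzr : (zt r ^ ⌊t⌋) ^ r = 1 := by
          rw [← zpow_natCast, ← zpow_mul, mul_comm, zpow_mul, zpow_natCast,
            (zt_prim hr).pow_eq_one, one_zpow]
        show ‖p.2‖ ^ 2 = GG 2 ((zt r ^ ⌊t⌋ * p.1) ^ r)
        rw [mul_pow, hzr, one_mul]
        exact hp
      have key := (QQ_eq hr (p' := (zt r ^ ⌊t⌋ * p.1, p.2)) (fst_ne hr hp) (fst_ne hr hp1) t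
        (t - ⌊t⌋)).2 ⟨⌊t⌋, rfl, rfl⟩
      refine ⟨Quot.mk _ (⟨_, hp1⟩, ⟨t - ⌊t⌋, ⟨by linarith, by linarith⟩⟩), ?_⟩
      have key2 : QQ r ((zt r ^ ⌊t⌋ * p.1, p.2), t - ⌊t⌋) = (n, w) := by rw [← key, ht]
      apply Prod.ext
      · apply Subtype.ext
        exact congrArg (fun q => q.1) key2
      · apply Subtype.ext
        exact congrArg (fun q => q.2) key2
  have hcont : Continuous (Quot.lift F hrel : MT (phM r hr) →
      MM 1 × Metric.sphere (0 : ℂ) 1) := continuous_quot_lift hrel hFc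
  exact ⟨Continuous.homeoOfEquivCompactToT2 (f := Equiv.ofBijective _ hbij) hcont⟩

end

end Pool.Agent.Lib.MP_84984d_gt
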